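import Pool.Agent.U497.SF.Fam
import Pool.Agent.U497.SP.Poly

/-!
# The thin families `f(X) + c - f(h)`, `f = a X² + b X` (helper497)
-/

set_option autoImplicit false

namespace Pool.Agent.U497.SF

open Finset Polynomial Filter Topology

open Pool.Agent.Y677.RSZ (rt V)
open Pool.Agent.K3h89.SZ (SysP CF)
open Pool.Agent.H300R2.BH (rho)
open Pool.Agent.U497.SP (fn sysP InP few)

/-- `f(X) - f(h) + c` -/
noncomputable def Qp (a b c : ℤ) (h : ℕ) : ℤ[X] := C a * X ^ 2 + C b * X + C (c - (a * (h : ℤ) ^ 2 + b * h))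

lemma Qp_eval (a b c : ℤ) (h : ℕ) (x : ℤ) :
    (Qp a b c h).eval x = a * x ^ 2 + b * x + (c - (a * (h : ℤ) ^ 2 + b * h)) := by
  unfold Qp
  simp

lemma fn_Qp (a b c : ℤ) (h : ℕ) (x : ℤ) :
    fn (Qp a b c h) x = a * x ^ 2 + b * x + (c - (a * (h : ℤ) ^ 2 + b * h)) := Qp_eval a b c h x

lemma Qp_deg (a b c : ℤ) (h : ℕ) : (Qp a b c h).natDegree ≤ 3 := by
  unfold Qp
  refine (natDegree_add_le _ _).trans (max_le ((natDegree_add_le _ _).trans (max_le ?_ ?_)) ?_)
  · exact (natDegree_C_mul_X_pow_le a 2).trans (by norm_num)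
  · exact (natDegree_C_mul_le b X).trans (natDegree_X_le.trans (by norm_num))
  · rw [natDegree_C]
    norm_num

/-- no prime divides all the values -/
def Adm (a b c : ℤ) : Prop :=
  (∀ p : ℕ, p.Prime → (p : ℤ) ∣ a → (p : ℤ) ∣ b → ¬ (p : ℤ) ∣ c) ∧ (Even (a + b) → Odd c)

lemma Qp_rho {a b c : ℤ} (hadm : Adm a b c) (h p : ℕ) (hp : p.Prime) : rho (Qp a b c h) p ≠ p := by
  intro h0
  have hall : ∀ x ∈ range p, (p : ℤ) ∣ (Qp a b c h).eval (x : ℤ) := by
    unfold rho at h0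
    have h1 : (range p).filter (fun k : ℕ => (p : ℤ) ∣ (Qp a b c h).eval (k : ℤ)) = range p := by
      apply eq_of_subset_of_card_le (filter_subset _ _)
      rw [h0, card_range]
    intro x hx
    rw [← h1, mem_filter] at hx
    exact hx.2
  have hall2 : ∀ x : ℤ, (p : ℤ) ∣ (Qp a b c h).eval x := by
    intro x
    have hpz : (0 : ℤ) < p := by exact_mod_cast hp.pos
    have e1 : (((x % (p : ℤ)).toNat : ℕ) : ℤ) = x % p := Int.toNat_of_nonneg (Int.emod_nonneg x hpz.ne')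
    have h2 : (x % (p : ℤ)).toNat ∈ range p := by
      rw [mem_range]
      have := Int.emod_lt_of_pos x hpz
      omega
    have h3 := hall _ h2
    rw [e1] at h3
    exact (Pool.Agent.U497.SP.dvd_shift (Qp a b c h) p x (x % p) Int.dvd_self_sub_emod).2 h3
  have g0 := hall2 0
  have g1 := hall2 1
  have g2 := hall2 (-1)
  have gh := hall2 h
  rw [Qp_eval] at g0 g1 g2 gh
  have f0 : (p : ℤ) ∣ c := by
    have e : a * (h : ℤ) ^ 2 + b * h + (c - (a * (h : ℤ) ^ 2 + b * h)) = c := by ring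
    rwa [e] at gh
  have f1 : (p : ℤ) ∣ a + b := by
    have := dvd_sub g1 g0
    have e : a * (1 : ℤ) ^ 2 + b * 1 + (c - (a * (h : ℤ) ^ 2 + b * h)) -
      (a * (0 : ℤ) ^ 2 + b * 0 + (c - (a * (h : ℤ) ^ 2 + b * h))) = a + b := by ring
    rwa [e] at this
  have f2 : (p : ℤ) ∣ a - b := by
    have := dvd_sub g2 g0
    have e : a * (-1 : ℤ) ^ 2 + b * (-1) + (c - (a * (h : ℤ) ^ 2 + b * h)) -
      (a * (0 : ℤ) ^ 2 + b * 0 + (c - (a * (h : ℤ) ^ 2 + b * h))) = a - b := by ring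
    rwa [e] at this
  by_cases hp2 : p = 2
  · subst hp2
    have h1 : Even (a + b) := even_iff_two_dvd.2 (by exact_mod_cast f1)
    have h2 : Even c := even_iff_two_dvd.2 (by exact_mod_cast f0)
    exact (Int.not_even_iff_odd.2 (hadm.2 h1)) h2
  · have hpz : Prime (p : ℤ) := Nat.prime_iff_prime_int.1 hp
    have hn2 : ¬ (p : ℤ) ∣ 2 := by
      intro h3
      have h5 : p ∣ 2 := by exact_mod_cast h3
      exact hp2 ((Nat.prime_dvd_prime_iff_eq hp Nat.prime_two).1 h5)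
    have q1 : (p : ℤ) ∣ 2 * a := by
      have := dvd_add f1 f2
      rwa [show a + b + (a - b) = 2 * a by ring] at this
    have q2 : (p : ℤ) ∣ 2 * b := by
      have := dvd_sub f1 f2
      rwa [show a + b - (a - b) = 2 * b by ring] at this
    exact hadm.1 p hp ((hpz.dvd_or_dvd q1).resolve_left hn2) ((hpz.dvd_or_dvd q2).resolve_left hn2) f0

lemma Qp_sys {a b c : ℤ} (hadm : Adm a b c) (h : ℕ) : SysP 3 (fn (Qp a b c h)) :=
  sysP (Qp_deg a b c h) fun p hp => Qp_rho hadm h p hp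

open Classical in
/-- the classes of `h` for which `p` divides two values at distance `t` -/
noncomputable def Rq (a b c : ℤ) (t p : ℕ) : Finset ℕ :=
  if p.Prime ∧ ¬ (p : ℤ) ∣ 2 * a then
    (range p).filter (fun r : ℕ => (p : ℤ) ∣ (2 * a * r + b) ^ 2 - 4 * a * c - a ^ 2 * t ^ 2) else ∅

lemma card_Rq (a b c : ℤ) (t p : ℕ) : (Rq a b c t p).card ≤ 3 := by
  classical
  unfold Rq
  split_ifs with h
  · obtain ⟨hp, hpa⟩ := h
    haveI : Fact p.Prime := ⟨hp⟩
    have ha : ((2 * a : ℤ) : ZMod p) ≠ 0 := by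
      intro h0
      exact hpa ((ZMod.intCast_zmod_eq_zero_iff_dvd _ p).1 h0)
    push_cast at ha
    set T := (nthRoots 2 ((4 * a * c + a ^ 2 * t ^ 2 : ℤ) : ZMod p)).toFinset with hT
    have h1 : ((range p).filter (fun r : ℕ => (p : ℤ) ∣ (2 * a * r + b) ^ 2 - 4 * a * c - a ^ 2 * t ^ 2)).card ≤ T.card := by
      apply card_le_card_of_injOn (fun r : ℕ => (2 * a * r + b : ZMod p))
      · intro r hr
        rw [mem_coe, mem_filter] at hr
        rw [mem_coe, hT, Multiset.mem_toFinset, mem_nthRoots (by norm_num)]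
        have h2 := (ZMod.intCast_zmod_eq_zero_iff_dvd _ p).2 hr.2
        push_cast at h2 ⊢
        linear_combination h2
      · intro r hr s hs hrs
        rw [mem_coe, mem_filter, mem_range] at hr hs
        simp only at hrs
        have h2 : (2 * a : ZMod p) * r = (2 * a : ZMod p) * s := by linear_combination hrs
        have h3 := mul_left_cancel₀ ha h2
        have h4 := (ZMod.natCast_eq_natCast_iff' r s p).1 h3
        rwa [Nat.mod_eq_of_lt hr.1, Nat.mod_eq_of_lt hs.1] at h4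
    refine h1.trans ((Multiset.toFinset_card_le _).trans ((card_nthRoots 2 _).trans (by norm_num)))
  · simp

lemma cls_Rq {a b c : ℤ} {h t p : ℕ} (hp : p.Prime) (ht : ¬ p ∣ t) (hd : ¬ p ∣ (2 * a).natAbs)
    (hcf : CF (fn (Qp a b c h)) t p) : h % p ∈ Rq a b c t p := by
  classical
  have hpz : Prime (p : ℤ) := Nat.prime_iff_prime_int.1 hp
  have hpa : ¬ (p : ℤ) ∣ 2 * a := fun h1 => hd (Int.natCast_dvd.1 h1)
  obtain ⟨x, h1, h2⟩ := hcf
  rw [fn_Qp] at h1 h2
  have h3 := dvd_sub h2 h1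
  rw [show a * (x + (t : ℤ)) ^ 2 + b * (x + t) + (c - (a * (h : ℤ) ^ 2 + b * h)) -
    (a * x ^ 2 + b * x + (c - (a * (h : ℤ) ^ 2 + b * h))) = (t : ℤ) * (2 * a * x + a * t + b) by ring] at h3
  have h4 : (p : ℤ) ∣ 2 * a * x + a * t + b := by
    refine (hpz.dvd_or_dvd h3).resolve_left fun h5 => ht ?_
    exact_mod_cast h5
  have h5 : (p : ℤ) ∣ (2 * a * h + b) ^ 2 - 4 * a * c - a ^ 2 * t ^ 2 := by
    have h6 : (p : ℤ) ∣ 4 * a * (a * x ^ 2 + b * x + (c - (a * (h : ℤ) ^ 2 + b * h))) := h1.mul_left _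
    have h7 : (p : ℤ) ∣ (2 * a * x + a * t + b) * (2 * a * x + b - a * t) := h4.mul_right _
    have h8 := dvd_sub h7 h6
    rwa [show (2 * a * x + a * t + b) * (2 * a * x + b - a * t) -
      4 * a * (a * x ^ 2 + b * x + (c - (a * (h : ℤ) ^ 2 + b * h))) =
      (2 * a * h + b) ^ 2 - 4 * a * c - a ^ 2 * t ^ 2 by ring] at h8
  unfold Rq
  rw [if_pos ⟨hp, hpa⟩, mem_filter, mem_range]
  refine ⟨Nat.mod_lt _ hp.pos, ?_⟩
  have h9 : (p : ℤ) ∣ (h : ℤ) - ((h % p : ℕ) : ℤ) := by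
    push_cast
    exact Int.dvd_self_sub_emod
  have h10 : (p : ℤ) ∣ ((h : ℤ) - ((h % p : ℕ) : ℤ)) * (2 * a * (2 * a * (h + ((h % p : ℕ) : ℤ)) + 2 * b)) := h9.mul_right _
  have h11 := dvd_sub h5 h10
  rwa [show (2 * a * (h : ℤ) + b) ^ 2 - 4 * a * c - a ^ 2 * t ^ 2 -
    ((h : ℤ) - ((h % p : ℕ) : ℤ)) * (2 * a * (2 * a * (h + ((h % p : ℕ) : ℤ)) + 2 * b)) =
    (2 * a * ((h % p : ℕ) : ℤ) + b) ^ 2 - 4 * a * c - a ^ 2 * t ^ 2 by ring] at h11

lemma per_Q (a b c : ℤ) (h p : ℕ) : rt (fn (Qp a b c (p + h))) p = rt (fn (Qp a b c h)) p := by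
  unfold rt
  congr 1
  apply filter_congr
  intro x _
  rw [fn_Qp, fn_Qp]
  have h1 : (p : ℤ) ∣ (p : ℤ) * (a * (p + 2 * h) + b) := dvd_mul_right _ _
  have e : a * (x : ℤ) ^ 2 + b * x + (c - (a * ((p + h : ℕ) : ℤ) ^ 2 + b * ((p + h : ℕ) : ℤ))) =
      a * (x : ℤ) ^ 2 + b * x + (c - (a * (h : ℤ) ^ 2 + b * h)) - (p : ℤ) * (a * (p + 2 * h) + b) := by
    push_cast
    ring
  rw [e]
  exact dvd_sub_left h1

lemma mean_Q (a b c : ℤ) {p : ℕ} (hp : p.Prime) (hd : ¬ p ∣ (2 * a).natAbs) :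
    p ≤ 1 + ∑ h ∈ range p, rt (fn (Qp a b c h)) p := by
  classical
  haveI : Fact p.Prime := ⟨hp⟩
  have hpa : ¬ (p : ℤ) ∣ 2 * a := fun h1 => hd (Int.natCast_dvd.1 h1)
  have ha2 : ((2 * a : ℤ) : ZMod p) ≠ 0 := by
    intro h0
    exact hpa ((ZMod.intCast_zmod_eq_zero_iff_dvd _ p).1 h0)
  push_cast at ha2
  have h20 : (2 : ZMod p) ≠ 0 := left_ne_zero_of_mul ha2
  have ha0 : (a : ZMod p) ≠ 0 := right_ne_zero_of_mul ha2
  set W : Finset (ℕ × ℕ) := (range p ×ˢ range p).filter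
    (fun w => (p : ℤ) ∣ a * (w.2 : ℤ) ^ 2 + b * w.2 + (c - (a * (w.1 : ℤ) ^ 2 + b * w.1))) with hW
  have h1 : ∑ h ∈ range p, rt (fn (Qp a b c h)) p = W.card := by
    rw [hW, card_filter, sum_product]
    refine sum_congr rfl fun h _ => ?_
    unfold rt
    rw [card_filter]
    refine sum_congr rfl fun x _ => ?_
    rw [fn_Qp]
  rw [h1]
  have hinj : ((univ : Finset (ZMod p)).erase 0).card ≤ W.card := by
    apply card_le_card_of_injOn (fun v : ZMod p =>
      ((((v - b) / a + c / v) / 2 : ZMod p).val, (((v - b) / a - c / v) / 2 : ZMod p).val))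
    · intro v hv
      rw [mem_coe, mem_erase] at hv
      rw [mem_coe, hW, mem_filter, mem_product, mem_range, mem_range]
      refine ⟨⟨ZMod.val_lt _, ZMod.val_lt _⟩, ?_⟩
      rw [← ZMod.intCast_zmod_eq_zero_iff_dvd]
      push_cast
      simp only [ZMod.natCast_zmod_val]
      have hv0 := hv.1
      field_simp
      ring
    · intro v hv w hw hvw
      rw [mem_coe, mem_erase] at hv hw
      simp only [Prod.mk.injEq] at hvw
      obtain ⟨e1, e2⟩ := hvw
      have f1 := ZMod.val_injective p e1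
      have f2 := ZMod.val_injective p e2
      have f3 : (v - b) / a = (w - b) / a := by
        have : ((v - b) / a + c / v) / 2 + ((v - b) / a - c / v) / 2 =
          ((w - b) / a + c / w) / 2 + ((w - b) / a - c / w) / 2 := by rw [f1, f2]
        have e3 : ∀ X Y : ZMod p, (X + Y) / 2 + (X - Y) / 2 = X := by
          intro X Y
          field_simp
          ring
        rwa [e3, e3] at this
      have f4 : v - b = w - b := by
        field_simp at f3
        exact f3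
      exact sub_left_injective f4
  rw [card_erase_of_mem (mem_univ _), card_univ, ZMod.card] at hinj
  omega

/-- few arguments with small values -/
lemma small_values {a b e : ℤ} (ha : a ≠ 0) (N Y : ℕ) :
    ((Icc 1 N).filter (fun n : ℕ => 0 < a * (n : ℤ) ^ 2 + b * n + e ∧ a * (n : ℤ) ^ 2 + b * n + e ≤ Y)).card ≤ 2 * Y := by
  classical
  set T := (Icc 1 N).filter (fun n : ℕ => 0 < a * (n : ℤ) ^ 2 + b * n + e ∧ a * (n : ℤ) ^ 2 + b * n + e ≤ Y) with hT
  have h1 := card_le_mul_card_image (f := fun n : ℕ => a * (n : ℤ) ^ 2 + b * n + e) T 2 (by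
    intro v _
    by_contra hcon
    obtain ⟨x, hx, y, hy, z, hz, hxy, hxz, hyz⟩ := two_lt_card.1 (not_le.1 hcon)
    rw [mem_filter] at hx hy hz
    have e1 : ((x : ℤ) - y) * (a * (x + y) + b) = 0 := by linear_combination hx.2 - hy.2
    have e2 : ((x : ℤ) - z) * (a * (x + z) + b) = 0 := by linear_combination hx.2 - hz.2
    have f1 : a * ((x : ℤ) + y) + b = 0 := by
      rcases mul_eq_zero.1 e1 with h | h
      · exact absurd (by exact_mod_cast sub_eq_zero.1 h) hxy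
      · exact h
    have f2 : a * ((x : ℤ) + z) + b = 0 := by
      rcases mul_eq_zero.1 e2 with h | h
      · exact absurd (by exact_mod_cast sub_eq_zero.1 h) hxz
      · exact h
    have f3 : a * ((y : ℤ) - z) = 0 := by linear_combination f1 - f2
    rcases mul_eq_zero.1 f3 with h | h
    · exact ha h
    · exact hyz (by exact_mod_cast sub_eq_zero.1 h))
  have h2 : (T.image (fun n : ℕ => a * (n : ℤ) ^ 2 + b * n + e)).card ≤ Y := by
    have h3 : T.image (fun n : ℕ => a * (n : ℤ) ^ 2 + b * n + e) ⊆ Icc 1 (Y : ℤ) := by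
      intro v hv
      rw [mem_image] at hv
      obtain ⟨n, hn, rfl⟩ := hv
      rw [hT, mem_filter] at hn
      rw [mem_Icc]
      exact ⟨by linarith [hn.2.1], hn.2.2⟩
    refine (card_le_card h3).trans ?_
    rw [Int.card_Icc]
    omega
  calc T.card ≤ 2 * (T.image (fun n : ℕ => a * (n : ℤ) ^ 2 + b * n + e)).card := h1
    _ ≤ 2 * Y := by omega

/-- a reducible member has at most four prime values -/
lemma four_values {a b e : ℤ} (ha : a ≠ 0) (N n0 : ℕ) (h0 : a * (n0 : ℤ) ^ 2 + b * n0 + e = 0) :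
    ((Icc 1 N).filter (fun n : ℕ => (a * (n : ℤ) ^ 2 + b * n + e).toNat.Prime)).card ≤ 4 := by
  classical
  set A1 := (Icc 1 N).filter (fun n : ℕ => (n : ℤ) - n0 = 1) with hA1
  set A2 := (Icc 1 N).filter (fun n : ℕ => (n : ℤ) - n0 = -1) with hA2
  set A3 := (Icc 1 N).filter (fun n : ℕ => a * ((n : ℤ) + n0) + b = 1) with hA3
  set A4 := (Icc 1 N).filter (fun n : ℕ => a * ((n : ℤ) + n0) + b = -1) with hA4
  have c1 : A1.card ≤ 1 := card_le_one.2 fun x hx y hy => by
    rw [hA1, mem_filter] at hx hy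
    have : (x : ℤ) = y := by linarith [hx.2, hy.2]
    exact_mod_cast this
  have c2 : A2.card ≤ 1 := card_le_one.2 fun x hx y hy => by
    rw [hA2, mem_filter] at hx hy
    have : (x : ℤ) = y := by linarith [hx.2, hy.2]
    exact_mod_cast this
  have hc : ∀ x y : ℕ, ∀ v : ℤ, a * ((x : ℤ) + n0) + b = v → a * ((y : ℤ) + n0) + b = v → x = y := by
    intro x y v h1 h2
    have h3 : a * ((x : ℤ) - y) = 0 := by linear_combination h1 - h2
    rcases mul_eq_zero.1 h3 with h | h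
    · exact absurd h ha
    · exact_mod_cast sub_eq_zero.1 h
  have c3 : A3.card ≤ 1 := card_le_one.2 fun x hx y hy => by
    rw [hA3, mem_filter] at hx hy
    exact hc x y 1 hx.2 hy.2
  have c4 : A4.card ≤ 1 := card_le_one.2 fun x hx y hy => by
    rw [hA4, mem_filter] at hx hy
    exact hc x y (-1) hx.2 hy.2
  have hsub : (Icc 1 N).filter (fun n : ℕ => (a * (n : ℤ) ^ 2 + b * n + e).toNat.Prime) ⊆ (A1 ∪ A2) ∪ (A3 ∪ A4) := by
    intro n hn
    rw [mem_filter] at hn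
    obtain ⟨hn1, hn2⟩ := hn
    have e1 : a * (n : ℤ) ^ 2 + b * n + e = ((n : ℤ) - n0) * (a * ((n : ℤ) + n0) + b) := by linear_combination h0
    rw [e1] at hn2
    have hpos : 0 < ((n : ℤ) - n0) * (a * ((n : ℤ) + n0) + b) := by
      by_contra hcon
      rw [Int.toNat_of_nonpos (not_lt.1 hcon)] at hn2
      exact Nat.not_prime_zero hn2
    have hpi : Prime (((n : ℤ) - n0) * (a * ((n : ℤ) + n0) + b)) := by
      have h1 := Nat.prime_iff_prime_int.1 hn2
      rwa [Int.toNat_of_nonneg hpos.le] at h1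
    rw [mem_union, mem_union, mem_union, hA1, hA2, hA3, hA4, mem_filter, mem_filter, mem_filter, mem_filter]
    rcases hpi.irreducible.isUnit_or_isUnit rfl with h | h
    · rcases Int.isUnit_iff.1 h with h | h
      · exact Or.inl (Or.inl ⟨hn1, h⟩)
      · exact Or.inl (Or.inr ⟨hn1, h⟩)
    · rcases Int.isUnit_iff.1 h with h | h
      · exact Or.inr (Or.inl ⟨hn1, h⟩)
      · exact Or.inr (Or.inr ⟨hn1, h⟩)
  have h5 := card_le_card hsub
  have h6 := card_union_le (A1 ∪ A2) (A3 ∪ A4)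
  have h7 := card_union_le A1 A2
  have h8 := card_union_le A3 A4
  omega

/-- the arguments `n ≤ N` with prime value -/
def PQ (a b c : ℤ) (h N : ℕ) : Finset ℕ :=
  (Icc 1 N).filter (fun n : ℕ => (a * (n : ℤ) ^ 2 + b * n + (c - (a * (h : ℤ) ^ 2 + b * h))).toNat.Prime)

/-- **main theorem** for the thin families -/
theorem quad (a b : ℤ) (ha : a ≠ 0) (k : ℕ) (hk : 2 ≤ k) (K : ℕ) (δ ε : ℝ) (hδ : 0 < δ) (hε : 0 < ε) :
    ∃ B H₀ : ℕ, ∀ H : ℕ, H₀ ≤ H → ∀ c : ℤ, Adm a b c → c.natAbs ≤ K * H ^ 2 →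
      ∃ Bad ⊆ Icc 1 H, (Bad.card : ℝ) ≤ ε * H ∧ ∀ h ∈ Icc 1 H, h ∉ Bad → ∀ S ⊆ PQ a b c h (K * H),
        (Set.ncard {x : ℕ | x ∈ S ∧ ¬ InP S k (Real.log H ^ B) x} : ℝ) ≤ δ * (H / Real.log H) := by
  classical
  have hK1 : (0 : ℝ) < (K : ℝ) + 1 := by positivity
  obtain ⟨B, x1, hfam⟩ := fam k 3 (2 * a).natAbs (δ / (2 * (K + 1))) (ε / (K + 1)) hk (by positivity) (by positivity)
    (Int.natAbs_pos.2 (mul_ne_zero two_ne_zero ha))
  have tc : Tendsto (fun H : ℕ => (H : ℝ)) atTop atTop := tendsto_natCast_atTop_atTop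
  have tl : Tendsto (fun H : ℕ => Real.log (H : ℝ)) atTop atTop := Real.tendsto_log_atTop.comp tc
  have hlo : ∀ᶠ H : ℕ in atTop, 4 * √(((K : ℝ) + 1)) * Real.log H ≤ δ * √(H : ℝ) := by
    have h1 : (fun x : ℝ => Real.log x) =o[atTop] fun x : ℝ => x ^ (1 / 2 : ℝ) := isLittleO_log_rpow_atTop (by norm_num)
    have h2 := h1.bound (show (0 : ℝ) < δ / (4 * √((K : ℝ) + 1)) by positivity)
    filter_upwards [tc.eventually h2, tc.eventually_ge_atTop 1] with H h3 h4
    rw [Real.norm_of_nonneg (Real.log_nonneg h4), Real.norm_of_nonneg (by positivity), ← Real.sqrt_eq_rpow,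
      div_mul_eq_mul_div, le_div_iff₀ (by positivity)] at h3
    linarith
  have hlo4 : ∀ᶠ H : ℕ in atTop, 4 * Real.log H ≤ δ * H := by
    filter_upwards [hlo, tc.eventually_ge_atTop 1] with H h1 h2
    have h3 : (1 : ℝ) ≤ √((K : ℝ) + 1) := by
      rw [Real.one_le_sqrt]
      have : (0 : ℝ) ≤ K := Nat.cast_nonneg K
      linarith
    have h4 : √(H : ℝ) ≤ H := by
      rw [Real.sqrt_le_left (by linarith)]
      nlinarith
    have h5 : 0 ≤ Real.log (H : ℝ) := Real.log_nonneg h2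
    calc 4 * Real.log H ≤ 4 * √((K : ℝ) + 1) * Real.log H := by nlinarith
      _ ≤ δ * √(H : ℝ) := h1
      _ ≤ δ * H := mul_le_mul_of_nonneg_left h4 hδ.le
  obtain ⟨x2, hx2⟩ := eventually_atTop.1 (hlo.and (hlo4.and ((tc.eventually_ge_atTop
    (2 * |(a : ℝ)| + 2 * |(b : ℝ)| + 1)).and ((tc.eventually_ge_atTop ((K : ℝ) + 1)).and
    ((tl.eventually_ge_atTop ((2 : ℝ) ^ B)).and (tc.eventually_ge_atTop 2))))))
  refine ⟨B + 1, max x1 x2, fun H hH c hadm hc => ?_⟩
  obtain ⟨k1, k2, k3, k4, k5, k6⟩ := hx2 H ((le_max_right _ _).trans hH)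
  have hHx1 : x1 ≤ (K + 1) * H := ((le_max_left _ _).trans hH).trans (Nat.le_mul_of_pos_left H (by omega))
  have hsqK : √((((K + 1) * H : ℕ) : ℝ)) ≤ (((K + 1) * H : ℕ) : ℝ) := by
    have h1 : (1 : ℝ) ≤ (((K + 1) * H : ℕ) : ℝ) := by
      have h2 : (1 : ℝ) ≤ H := by linarith
      push_cast
      nlinarith [(Nat.cast_nonneg K : (0 : ℝ) ≤ _)]
    rw [Real.sqrt_le_left (by linarith)]
    nlinarith
  obtain ⟨Bad, hB1, hB2, hB3⟩ := hfam ((K + 1) * H) ((K + 1) * H) hHx1 hsqK (fun h => fn (Qp a b c h)) (Rq a b c)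
    (fun h p hp _ => ((Qp_sys hadm h).root p hp).1) (card_Rq a b c) (fun h t p hp ht hd hcf => cls_Rq hp ht hd hcf)
    (fun h p _ _ => per_Q a b c h p) (fun p hp hd => mean_Q a b c hp hd)
  have hH0 : (0 : ℝ) < H := by linarith
  have hlogH : 0 < Real.log (H : ℝ) := Real.log_pos (by linarith)
  have hH1 : 1 ≤ H := by
    have : (1 : ℝ) ≤ H := by linarith
    exact_mod_cast this
  have hcast : (((K + 1) * H : ℕ) : ℝ) = ((K : ℝ) + 1) * H := by push_cast; ring
  have hlog1 : Real.log (H : ℝ) ≤ Real.log (((K + 1) * H : ℕ) : ℝ) := by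
    apply Real.log_le_log hH0
    rw [hcast]
    nlinarith [(Nat.cast_nonneg K : (0 : ℝ) ≤ _)]
  have hlog2 : Real.log (((K + 1) * H : ℕ) : ℝ) ≤ 2 * Real.log (H : ℝ) := by
    rw [hcast, Real.log_mul hK1.ne' hH0.ne']
    have := Real.log_le_log hK1 k4
    linarith
  refine ⟨Bad ∩ Icc 1 H, inter_subset_right, ?_, ?_⟩
  · have h1 : ((Bad ∩ Icc 1 H).card : ℝ) ≤ Bad.card := by exact_mod_cast card_le_card inter_subset_left
    refine h1.trans (hB2.trans (le_of_eq ?_))
    rw [hcast]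
    field_simp
  intro h hh hbad S hS
  have hhI : h ∈ Icc 1 ((K + 1) * H) := by
    rw [mem_Icc] at hh ⊢
    exact ⟨hh.1, hh.2.trans (Nat.le_mul_of_pos_left H (by omega))⟩
  have hhb : h ∉ Bad := fun h1 => hbad (mem_inter.2 ⟨h1, hh⟩)
  have hSc : ∀ n ∈ S, 1 ≤ n ∧ n ≤ K * H ∧
      (a * (n : ℤ) ^ 2 + b * n + (c - (a * (h : ℤ) ^ 2 + b * h))).toNat.Prime := by
    intro n hn
    have := hS hn
    rw [PQ, mem_filter, mem_Icc] at this
    exact ⟨this.1.1, this.1.2, this.2⟩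
  by_cases hz : ∃ n ∈ Ioc 0 ((K + 1) * H), fn (Qp a b c h) (n : ℤ) = 0
  · -- a reducible member
    obtain ⟨n0, -, hn0⟩ := hz
    rw [fn_Qp] at hn0
    have h1 := four_values ha (K * H) n0 hn0
    have h2 : (Set.ncard {x : ℕ | x ∈ S ∧ ¬ InP S k (Real.log H ^ (B + 1)) x} : ℝ) ≤ 4 := by
      have h3 : Set.ncard {x : ℕ | x ∈ S ∧ ¬ InP S k (Real.log H ^ (B + 1)) x} ≤ Set.ncard (S : Set ℕ) :=
        Set.ncard_le_ncard (fun x hx => hx.1) S.finite_toSet
      rw [Set.ncard_coe_finset] at h3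
      have h4 : S.card ≤ 4 := (card_le_card hS).trans h1
      exact_mod_cast h3.trans h4
    refine h2.trans ?_
    rw [mul_div_assoc', le_div_iff₀ hlogH]
    exact k2
  · push Not at hz
    have hsize : ∀ n ∈ Ioc 0 ((K + 1) * H), fn (Qp a b c h) (n : ℤ) ≠ 0 ∧
        |fn (Qp a b c h) (n : ℤ)| ≤ (((K + 1) * H : ℕ) : ℤ) ^ 3 := by
      intro n hn
      refine ⟨hz n hn, ?_⟩
      rw [fn_Qp]
      rw [mem_Ioc] at hn
      rw [mem_Icc] at hh
      set M : ℤ := (((K + 1) * H : ℕ) : ℤ) with hM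
      have hnM : (n : ℤ) ≤ M := by rw [hM]; exact_mod_cast hn.2
      have hn0 : (0 : ℤ) ≤ n := Int.natCast_nonneg n
      have hhM : (h : ℤ) ≤ M := by
        rw [hM]
        exact_mod_cast hh.2.trans (Nat.le_mul_of_pos_left H (by omega))
      have hh0 : (0 : ℤ) ≤ h := Int.natCast_nonneg h
      have hM1 : 1 ≤ M := by
        have : (1 : ℤ) ≤ h := by exact_mod_cast hh.1
        linarith
      have hcM : |c| ≤ M ^ 2 := by
        have h1 : |c| ≤ ((K * H ^ 2 : ℕ) : ℤ) := by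
          rw [Int.abs_eq_natAbs]
          exact_mod_cast hc
        refine h1.trans ?_
        rw [hM]
        have h2 : K * H ^ 2 ≤ ((K + 1) * H) ^ 2 := by
          rw [mul_pow]
          apply Nat.mul_le_mul_right
          nlinarith
        exact_mod_cast h2
      have hC0 : 2 * |a| + 2 * |b| + 1 ≤ M := by
        have h1 : (2 * |(a : ℝ)| + 2 * |(b : ℝ)| + 1) ≤ (H : ℝ) := k3
        have h2 : (2 * |a| + 2 * |b| + 1 : ℤ) ≤ (H : ℤ) := by exact_mod_cast h1
        have h3 : (H : ℤ) ≤ M := by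
          rw [hM]
          exact_mod_cast Nat.le_mul_of_pos_left H (by omega : 0 < K + 1)
        linarith
      have s1 : |a * (n : ℤ) ^ 2| ≤ |a| * M ^ 2 := by
        rw [abs_mul, abs_pow, abs_of_nonneg hn0]
        exact mul_le_mul_of_nonneg_left (pow_le_pow_left₀ hn0 hnM 2) (abs_nonneg a)
      have s2 : |b * (n : ℤ)| ≤ |b| * M ^ 2 := by
        rw [abs_mul, abs_of_nonneg hn0]
        exact mul_le_mul_of_nonneg_left (hnM.trans (by nlinarith)) (abs_nonneg b)
      have s3 : |a * (h : ℤ) ^ 2| ≤ |a| * M ^ 2 := by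
        rw [abs_mul, abs_pow, abs_of_nonneg hh0]
        exact mul_le_mul_of_nonneg_left (pow_le_pow_left₀ hh0 hhM 2) (abs_nonneg a)
      have s4 : |b * (h : ℤ)| ≤ |b| * M ^ 2 := by
        rw [abs_mul, abs_of_nonneg hh0]
        exact mul_le_mul_of_nonneg_left (hhM.trans (by nlinarith)) (abs_nonneg b)
      have s5 : |a * (n : ℤ) ^ 2 + b * n + (c - (a * (h : ℤ) ^ 2 + b * h))| ≤ (2 * |a| + 2 * |b| + 1) * M ^ 2 := by
        have t1 := abs_add_le (a * (n : ℤ) ^ 2 + b * n) (c - (a * (h : ℤ) ^ 2 + b * h))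
        have t2 := abs_add_le (a * (n : ℤ) ^ 2) (b * n)
        have t3 := abs_sub c (a * (h : ℤ) ^ 2 + b * h)
        have t4 := abs_add_le (a * (h : ℤ) ^ 2) (b * h)
        linarith
      refine s5.trans ?_
      calc (2 * |a| + 2 * |b| + 1) * M ^ 2 ≤ M * M ^ 2 := mul_le_mul_of_nonneg_right hC0 (by positivity)
        _ = M ^ 3 := by ring
    have hap := hB3 h hhI hhb (Qp_sys hadm h) hsize
    apply few hk
    intro Z hZS hZc
    -- remove the arguments with small values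
    set Y : ℕ := ⌊√((((K + 1) * H : ℕ) : ℝ))⌋₊ with hY
    have hYu : (Y : ℝ) ≤ √((K : ℝ) + 1) * √(H : ℝ) := by
      rw [← Real.sqrt_mul hK1.le, ← hcast]
      exact Nat.floor_le (Real.sqrt_nonneg _)
    set e : ℤ := c - (a * (h : ℤ) ^ 2 + b * h) with he
    set T := (Icc 1 ((K + 1) * H)).filter (fun n : ℕ => 0 < a * (n : ℤ) ^ 2 + b * n + e ∧
      a * (n : ℤ) ^ 2 + b * n + e ≤ Y) with hT
    have hTc : T.card ≤ 2 * Y := small_values ha _ _
    have hTr : (T.card : ℝ) ≤ δ / 2 * (H / Real.log H) := by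
      have h1 : (T.card : ℝ) ≤ 2 * Y := by exact_mod_cast hTc
      have h2 : √(H : ℝ) * √(H : ℝ) = H := Real.mul_self_sqrt hH0.le
      have h3 : (2 * (√((K : ℝ) + 1) * √(H : ℝ))) * Real.log H ≤ δ / 2 * H := by
        calc (2 * (√((K : ℝ) + 1) * √(H : ℝ))) * Real.log H =
              (4 * √((K : ℝ) + 1) * Real.log H) * √(H : ℝ) / 2 := by ring
          _ ≤ (δ * √(H : ℝ)) * √(H : ℝ) / 2 := by
            apply div_le_div_of_nonneg_right _ (by norm_num)
            exact mul_le_mul_of_nonneg_right k1 (Real.sqrt_nonneg _)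
          _ = δ / 2 * (√(H : ℝ) * √(H : ℝ)) := by ring
          _ = δ / 2 * H := by rw [h2]
      rw [mul_div_assoc', le_div_iff₀ hlogH]
      refine le_trans ?_ h3
      apply mul_le_mul_of_nonneg_right _ hlogH.le
      linarith
    obtain ⟨x, d, hd1, hdB, hxd⟩ := hap (Z \ T) (by
        intro n hn
        rw [Finset.mem_sdiff] at hn
        have h1 := hSc n (hZS hn.1)
        rw [mem_Ioc]
        refine ⟨h1.1, h1.2.1.trans ?_⟩
        exact Nat.mul_le_mul_right H (by omega)) (by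
        intro n hn p hp hpY hpd
        rw [Finset.mem_sdiff] at hn
        obtain ⟨h1, h2, h3⟩ := hSc n (hZS hn.1)
        rw [fn_Qp] at hpd
        have hpos : 0 < a * (n : ℤ) ^ 2 + b * n + e := by
          by_contra hcon
          rw [Int.toNat_of_nonpos (not_lt.1 hcon)] at h3
          exact Nat.not_prime_zero h3
        have h4 : p ∣ (a * (n : ℤ) ^ 2 + b * n + e).toNat := by
          rw [← Int.natCast_dvd_natCast, Int.toNat_of_nonneg hpos.le]
          exact hpd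
        have h5 := (Nat.prime_dvd_prime_iff_eq hp h3).1 h4
        apply hn.2
        rw [hT, mem_filter, mem_Icc]
        refine ⟨⟨h1, h2.trans (Nat.mul_le_mul_right H (by omega))⟩, hpos, ?_⟩
        have h6 : p ≤ Y := by
          apply Nat.le_floor
          rw [Real.sqrt_eq_rpow]
          exact hpY
        have h7 : (a * (n : ℤ) ^ 2 + b * n + e) = (p : ℤ) := by
          rw [h5, Int.toNat_of_nonneg hpos.le]
        rw [h7]
        exact_mod_cast h6) (by
        have h1 : (Z.card : ℝ) ≤ (Z \ T).card + T.card := by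
          have h2 : Z.card ≤ (Z \ T).card + T.card := by
            have := Finset.card_le_card_sdiff_add_card (s := Z) (t := T)
            exact this
          exact_mod_cast h2
        have h2 : δ / (2 * ((K : ℝ) + 1)) * ((((K + 1) * H : ℕ) : ℝ) / Real.log (((K + 1) * H : ℕ) : ℝ)) ≤
            δ / 2 * (H / Real.log H) := by
          calc δ / (2 * ((K : ℝ) + 1)) * ((((K + 1) * H : ℕ) : ℝ) / Real.log (((K + 1) * H : ℕ) : ℝ)) ≤
                δ / (2 * ((K : ℝ) + 1)) * ((((K + 1) * H : ℕ) : ℝ) / Real.log (H : ℝ)) := by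
                apply mul_le_mul_of_nonneg_left _ (by positivity)
                exact div_le_div_of_nonneg_left (Nat.cast_nonneg _) hlogH hlog1
            _ = δ / 2 * (H / Real.log H) := by
              rw [hcast]
              field_simp
        linarith)
    refine ⟨x, d, hd1, hdB.trans ?_, fun i hi => (Finset.mem_sdiff.1 (hxd i hi)).1⟩
    calc Real.log (((K + 1) * H : ℕ) : ℝ) ^ B ≤ (2 * Real.log (H : ℝ)) ^ B :=
          pow_le_pow_left₀ (hlogH.le.trans hlog1) hlog2 B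
      _ = 2 ^ B * Real.log H ^ B := by rw [mul_pow]
      _ ≤ Real.log H * Real.log H ^ B := mul_le_mul_of_nonneg_right k5 (by positivity)
      _ = Real.log H ^ (B + 1) := by ring

end Pool.Agent.U497.SF
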