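import Pool.Agent.U497.SP.One
import Pool.Agent.U497.SP.Mom
import Pool.Agent.U497.SP.Var
import Pool.Agent.Helper256.KM.E1

/-!
# Szemerédi's theorem relative to the sifted sets of almost all members of a one-parameter family (helper497)

`F 1, ..., F N` functions `ℤ → ℤ`, considered in an interval of length `H ≤ N²`. Assumptions: a common prime factor `p` of
`F a x` and `F a (x + t)`, `p ∤ t`, `p ∤ d0`, fixes `a` modulo `p` up to `g` classes; the number of the roots of `F a` modulo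
`p ∤ d0` is at most `g`, depends on `a` modulo `p` only, and its mean value is at least `1 - 1 / p`.
-/

set_option autoImplicit false

namespace Pool.Agent.U497.SF

open Finset Filter Topology

open Pool.Agent.Y677.RSZ (rt V)
open Pool.Agent.TH423.SH (PS)
open Pool.Agent.K3h89.SZ (SysP CF)
open Pool.Agent.K3h89.SZ.EXC (sum_dvd sum_sq)
open Pool.Agent.U497.SP (tail first var one Lar)

/-- the primes of medium size -/
noncomputable def Pm (X : ℝ) : Finset ℕ :=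
  (Icc 1 ⌊Real.exp (√(Real.log X))⌋₊).filter (fun p : ℕ => p.Prime ∧ Real.log (Real.log X) / 2 < p)

lemma mem_Pm {X : ℝ} {p : ℕ} : p ∈ Pm X ↔ p.Prime ∧ Real.log (Real.log X) / 2 < p ∧ (p : ℝ) ≤ Real.exp (√(Real.log X)) := by
  unfold Pm
  rw [mem_filter, mem_Icc]
  constructor
  · rintro ⟨⟨h1, h2⟩, h3, h4⟩
    exact ⟨h3, h4, (Nat.le_floor_iff (Real.exp_pos _).le).1 h2⟩
  · rintro ⟨h1, h2, h3⟩
    exact ⟨⟨h1.one_lt.le, Nat.le_floor h3⟩, h1, h2⟩

lemma sum_biUnion_le' (s : Finset ℕ) (T : ℕ → Finset ℕ) (f : ℕ → ℝ) (hf : ∀ x, 0 ≤ f x) :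
    ∑ p ∈ s.biUnion T, f p ≤ ∑ h ∈ s, ∑ p ∈ T h, f p := by
  classical
  induction s using Finset.induction_on with
  | empty => simp
  | insert a s ha ih =>
    rw [Finset.biUnion_insert, Finset.sum_insert ha]
    have h1 := Finset.sum_union_inter (s₁ := T a) (s₂ := s.biUnion T) (f := f)
    have h2 : 0 ≤ ∑ p ∈ T a ∩ s.biUnion T, f p := Finset.sum_nonneg fun x _ => hf x
    linarith

open Classical in
/-- **medium primes** -/
theorem famMed (g d0 B A : ℕ) (η : ℝ) (hη : 0 < η) (hd0 : 1 ≤ d0) : ∃ H₀ : ℕ, ∀ H N : ℕ, H₀ ≤ H → √(H : ℝ) ≤ N →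
    ∀ (F : ℕ → ℤ → ℤ) (R : ℕ → ℕ → Finset ℕ), (∀ t p, (R t p).card ≤ g) →
    (∀ a t p : ℕ, p.Prime → ¬ p ∣ t → ¬ p ∣ d0 → CF (F a) t p → a % p ∈ R t p) →
    (((Icc 1 N).filter (fun a => ∃ t : ℕ, 1 ≤ t ∧ (t : ℝ) ≤ Real.log H ^ B ∧
      η < ∑ p ∈ (Pm H).filter (fun p => CF (F a) t p), (1 : ℝ) / p)).card : ℝ) ≤ N / Real.log H ^ A := by
  obtain ⟨X₀, h2⟩ := tail g (A + B) (η / 2) (by positivity)
  have tc : Tendsto (fun H : ℕ => (H : ℝ)) atTop atTop := tendsto_natCast_atTop_atTop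
  have tl : Tendsto (fun H : ℕ => Real.log (H : ℝ)) atTop atTop := Real.tendsto_log_atTop.comp tc
  have t2 : Tendsto (fun H : ℕ => Real.log (Real.log (H : ℝ)) / 2) atTop atTop :=
    (Real.tendsto_log_atTop.comp tl).atTop_div_const (by norm_num)
  have t3 : Tendsto (fun H : ℕ => Real.log (Real.log (Real.log (H : ℝ)) / 2)) atTop atTop :=
    Real.tendsto_log_atTop.comp t2
  obtain ⟨H₂, hH₂⟩ := eventually_atTop.1 ((tc.eventually_ge_atTop X₀).and ((tl.eventually_ge_atTop 2).and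
    ((tc.eventually_ge_atTop 1).and ((t2.eventually_ge_atTop (d0 : ℝ)).and ((t2.eventually_ge_atTop 2).and
    (t3.eventually_ge_atTop (2 * ((2 * B : ℕ) : ℝ) / η)))))))
  refine ⟨H₂, fun H N hH hsqN F R hR hcls => ?_⟩
  obtain ⟨k1, k2, k3, k4, k5, k6⟩ := hH₂ H hH
  set L := Real.log (H : ℝ) with hL
  set s : ℝ := Real.log L / 2 with hs
  have hL0 : 0 < L := by linarith
  have hLs : L = Real.exp (2 * s) := by rw [hs, mul_div_cancel₀ _ two_ne_zero, Real.exp_log hL0]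
  set T : ℕ → Finset ℕ := fun h => (Icc 1 N).filter (fun n =>
    η / 2 < ∑ p ∈ (Pm H).filter (fun p => n % p ∈ R h p), 1 / (p : ℝ)) with hT
  have hTc : ∀ h, ((T h).card : ℝ) ≤ N / L ^ (A + B) := fun h =>
    h2 H k1 N hsqN (Pm H) (R h) (fun p hp => mem_Pm.1 hp) (hR h)
  have hsub : (Icc 1 N).filter (fun a => ∃ t : ℕ, 1 ≤ t ∧ (t : ℝ) ≤ L ^ B ∧
      η < ∑ p ∈ (Pm H).filter (fun p => CF (F a) t p), (1 : ℝ) / p) ⊆ (Icc 1 ⌊L ^ B⌋₊).biUnion T := by
    intro a ha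
    rw [mem_filter] at ha
    obtain ⟨ha1, h, hh1, hh2, hh3⟩ := ha
    rw [mem_biUnion]
    refine ⟨h, mem_Icc.2 ⟨hh1, Nat.le_floor hh2⟩, ?_⟩
    rw [hT, mem_filter]
    refine ⟨ha1, ?_⟩
    have e1 : ∑ p ∈ (Pm H).filter (fun p => p ∣ h), 1 / (p : ℝ) ≤ η / 2 := by
      refine (sum_dvd k5 (2 * B) ((Pm H).filter (fun p => p ∣ h)) h hh1 ?_ ?_).trans ?_
      · refine hh2.trans (le_of_eq ?_)
        rw [hLs, ← Real.exp_nat_mul]
        congr 1
        push_cast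
        ring
      · intro p hp
        rw [mem_filter, mem_Pm] at hp
        exact ⟨hp.1.1, hp.1.2.1, hp.2⟩
      · have hls : 0 < Real.log s := Real.log_pos (by linarith)
        rw [div_le_iff₀ hls]
        rw [div_le_iff₀ hη] at k6
        linarith
    have e2 : (Pm H).filter (fun p => CF (F a) h p) ⊆
        (Pm H).filter (fun p => p ∣ h) ∪ (Pm H).filter (fun p => a % p ∈ R h p) := by
      intro p hp
      rw [mem_filter] at hp
      obtain ⟨hpP, hp5⟩ := hp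
      have hpP' := mem_Pm.1 hpP
      rw [mem_union, mem_filter, mem_filter]
      by_cases g1 : p ∣ h
      · left; exact ⟨hpP, g1⟩
      · right
        refine ⟨hpP, hcls a h p hpP'.1 g1 ?_ hp5⟩
        intro g2
        have g3 : (p : ℝ) ≤ d0 := by exact_mod_cast Nat.le_of_dvd hd0 g2
        linarith [hpP'.2.1]
    have e3 : ∑ p ∈ (Pm H).filter (fun p => CF (F a) h p), (1 : ℝ) / p ≤
        ∑ p ∈ (Pm H).filter (fun p => p ∣ h), 1 / (p : ℝ) +
          ∑ p ∈ (Pm H).filter (fun p => a % p ∈ R h p), 1 / (p : ℝ) := by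
      refine (sum_le_sum_of_subset_of_nonneg e2 fun _ _ _ => by positivity).trans ?_
      rw [← sum_union_inter]
      exact le_add_of_nonneg_right (sum_nonneg fun _ _ => by positivity)
    linarith
  have hcard : (((Icc 1 ⌊L ^ B⌋₊).biUnion T).card : ℝ) ≤ L ^ B * (N / L ^ (A + B)) := by
    have h3 : (((Icc 1 ⌊L ^ B⌋₊).biUnion T).card : ℝ) ≤ ∑ m ∈ Icc 1 ⌊L ^ B⌋₊, ((T m).card : ℝ) := by
      exact_mod_cast card_biUnion_le
    refine h3.trans ((sum_le_sum fun m _ => hTc m).trans ?_)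
    rw [sum_const, nsmul_eq_mul, Nat.card_Icc, Nat.add_sub_cancel]
    exact mul_le_mul_of_nonneg_right (Nat.floor_le (by positivity)) (by positivity)
  calc _ ≤ (((Icc 1 ⌊L ^ B⌋₊).biUnion T).card : ℝ) := by exact_mod_cast card_le_card hsub
    _ ≤ _ := hcard
    _ = N / L ^ A := by
      rw [show A + B = B + A by ring, pow_add]
      field_simp

/-- the first moment, primes up to `H` -/
lemma first2 (g : ℕ) (N H : ℕ) (P : Finset ℕ) (R : ℕ → Finset ℕ) (E : ℝ) (hE : 2 ≤ E)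
    (hP : ∀ p ∈ P, p.Prime ∧ E < p ∧ p ≤ H) (hR : ∀ p, (R p).card ≤ g) :
    ∑ n ∈ Icc 1 N, ∑ p ∈ P.filter (fun p => n % p ∈ R p), 1 / (p : ℝ) ≤ 4 * g * N / E + g * (1 + Real.log H) := by
  classical
  set P1 := P.filter (fun p => p ≤ N) with hP1
  set P2 := P.filter (fun p => ¬ p ≤ N) with hP2
  have hsplit : ∀ n ∈ Icc 1 N, ∑ p ∈ P.filter (fun p => n % p ∈ R p), 1 / (p : ℝ) =
      ∑ p ∈ P1.filter (fun p => n % p ∈ R p), 1 / (p : ℝ) + ∑ p ∈ P2.filter (fun p => n % p ∈ R p), 1 / (p : ℝ) := by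
    intro n _
    rw [← sum_filter_add_sum_filter_not (P.filter (fun p => n % p ∈ R p)) (fun p => p ≤ N)]
    congr 1
    · apply sum_congr _ fun _ _ => rfl
      rw [hP1, filter_filter, filter_filter]
      apply filter_congr
      intro p _
      tauto
    · apply sum_congr _ fun _ _ => rfl
      rw [hP2, filter_filter, filter_filter]
      apply filter_congr
      intro p _
      tauto
  rw [sum_congr rfl hsplit, sum_add_distrib]
  apply add_le_add
  · apply first g N P1 R E hE _ hR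
    intro p hp
    rw [hP1, mem_filter] at hp
    exact ⟨(hP p hp.1).1, (hP p hp.1).2.1, hp.2⟩
  · have h1 : ∀ n ∈ Icc 1 N, ∑ p ∈ P2.filter (fun p => n % p ∈ R p), 1 / (p : ℝ) =
        ∑ p ∈ P2, if n % p ∈ R p then 1 / (p : ℝ) else 0 := fun n _ => sum_filter _ _
    rw [sum_congr rfl h1, sum_comm]
    have h2 : ∀ p ∈ P2, ∑ n ∈ Icc 1 N, (if n % p ∈ R p then 1 / (p : ℝ) else 0) ≤ g * (1 / (p : ℝ)) := by
      intro p hp
      rw [hP2, mem_filter] at hp
      rw [← sum_filter, sum_const, nsmul_eq_mul]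
      apply mul_le_mul_of_nonneg_right _ (by positivity)
      have h3 : ((Icc 1 N).filter (fun n => n % p ∈ R p)).card ≤ (R p).card := by
        apply card_le_card
        intro n hn
        rw [mem_filter, mem_Icc] at hn
        rw [Nat.mod_eq_of_lt (by omega)] at hn
        exact hn.2
      exact_mod_cast h3.trans (hR p)
    refine (sum_le_sum h2).trans ?_
    rw [← mul_sum]
    apply mul_le_mul_of_nonneg_left _ (Nat.cast_nonneg _)
    have h3 : ∑ p ∈ P2, 1 / (p : ℝ) ≤ ∑ p ∈ Icc 1 H, 1 / (p : ℝ) := by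
      apply sum_le_sum_of_subset_of_nonneg
      · intro p hp
        rw [hP2, mem_filter] at hp
        rw [mem_Icc]
        exact ⟨(hP p hp.1).1.one_lt.le, (hP p hp.1).2.2⟩
      · intro _ _ _
        positivity
    refine h3.trans ?_
    have h4 := harmonic_le_one_add_log H
    rw [harmonic_eq_sum_Icc] at h4
    push_cast at h4
    simpa [one_div] using h4

open Classical in
/-- **large primes** -/
theorem famLar (g d0 B A : ℕ) (τ : ℝ) (hτ : 0 < τ) (hd0 : 1 ≤ d0) : ∃ H₀ : ℕ, ∀ H N : ℕ, H₀ ≤ H → √(H : ℝ) ≤ N →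
    ∀ (F : ℕ → ℤ → ℤ) (R : ℕ → ℕ → Finset ℕ), (∀ t p, (R t p).card ≤ g) →
    (∀ a t p : ℕ, p.Prime → ¬ p ∣ t → ¬ p ∣ d0 → CF (F a) t p → a % p ∈ R t p) →
    (((Icc 1 N).filter (fun a => τ < ∑ p ∈ (Icc 1 H).filter (fun p : ℕ => p.Prime ∧ Lar (F a) H B p),
      (1 : ℝ) / p)).card : ℝ) ≤ N / Real.log H ^ A := by
  have tc : Tendsto (fun H : ℕ => (H : ℝ)) atTop atTop := tendsto_natCast_atTop_atTop
  have tl : Tendsto (fun H : ℕ => Real.log (H : ℝ)) atTop atTop := Real.tendsto_log_atTop.comp tc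
  have hpoly : ∀ (n : ℕ) (c : ℝ), ∀ᶠ H : ℕ in atTop, c * Real.log (H : ℝ) ^ n < Real.exp (√(Real.log (H : ℝ))) := by
    intro n c
    have t1 : Tendsto (fun H : ℕ => √(Real.log (H : ℝ))) atTop atTop := Real.tendsto_sqrt_atTop.comp tl
    have t2 := (Real.tendsto_pow_mul_exp_neg_atTop_nhds_zero (2 * n)).comp t1
    have t3 : ∀ᶠ H : ℕ in atTop, √(Real.log (H : ℝ)) ^ (2 * n) * Real.exp (-√(Real.log (H : ℝ))) <
        1 / (|c| + 1) := t2.eventually (gt_mem_nhds (by positivity))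
    filter_upwards [t3, tl.eventually_ge_atTop 0] with H h1 h2
    rw [pow_mul, Real.sq_sqrt h2, Real.exp_neg, ← div_eq_mul_inv, div_lt_div_iff₀ (Real.exp_pos _) (by positivity),
      one_mul] at h1
    refine lt_of_le_of_lt ?_ h1
    have h6 : c ≤ |c| + 1 := by linarith [le_abs_self c]
    rw [mul_comm]
    exact mul_le_mul_of_nonneg_left h6 (by positivity)
  obtain ⟨H₀, hH₀⟩ := eventually_atTop.1 ((tl.eventually_ge_atTop 4).and ((hpoly 0 4).and ((hpoly B 1).and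
    ((hpoly (A + B + 1) ((8 * g + 2 * g) / τ)).and (hpoly 0 d0)))))
  refine ⟨H₀, fun H N hH hsqN F R hR hcls => ?_⟩
  obtain ⟨k1, k2, k3, k5, k6⟩ := hH₀ H hH
  set L := Real.log (H : ℝ) with hL
  set E : ℝ := Real.exp (√L) with hE
  rw [pow_zero, mul_one] at k2 k6
  rw [one_mul] at k3
  have hL0 : 0 < L := by linarith
  have hE0 : 0 < E := Real.exp_pos _
  have hHp : (0 : ℝ) < H := by
    by_contra hcon
    have h0 : (H : ℝ) = 0 := le_antisymm (not_lt.1 hcon) (Nat.cast_nonneg _)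
    rw [hL, h0, Real.log_zero] at hL0
    exact lt_irrefl _ hL0
  have hEN : E ≤ N := by
    refine le_trans ?_ hsqN
    rw [hE, Real.sqrt_eq_rpow (H : ℝ), Real.rpow_def_of_pos hHp, ← hL]
    apply Real.exp_le_exp.2
    have h1 : √L * √L = L := Real.mul_self_sqrt hL0.le
    have h2 : 2 ≤ √L := by
      rw [show (2 : ℝ) = √4 by (rw [show (4 : ℝ) = 2 ^ 2 by norm_num, Real.sqrt_sq (by norm_num)])]
      exact Real.sqrt_le_sqrt k1
    nlinarith
  have hN0 : (0 : ℝ) < N := lt_of_lt_of_le hE0 hEN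
  set P : Finset ℕ := (Icc 1 H).filter (fun p : ℕ => p.Prime ∧ E ≤ p) with hP
  set W : ℕ → ℝ := fun a => ∑ h ∈ Icc 1 ⌊L ^ B⌋₊, ∑ p ∈ P.filter (fun p => a % p ∈ R h p), 1 / (p : ℝ) with hW
  have hPp : ∀ p ∈ P, p.Prime ∧ E / 2 < p ∧ p ≤ H := by
    intro p hp
    rw [hP, mem_filter, mem_Icc] at hp
    exact ⟨hp.2.1, by linarith [hp.2.2], hp.1.2⟩
  have hWsum : ∑ a ∈ Icc 1 N, W a ≤ L ^ B * ((8 * g + 2 * g) * L * N / E) := by
    rw [hW, sum_comm]
    have h1 : ∀ h ∈ Icc 1 ⌊L ^ B⌋₊, ∑ a ∈ Icc 1 N, ∑ p ∈ P.filter (fun p => a % p ∈ R h p), 1 / (p : ℝ) ≤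
        (8 * g + 2 * g) * L * N / E := by
      intro h _
      refine (first2 g N H P (R h) (E / 2) (by linarith) hPp (hR h)).trans ?_
      have e1 : 4 * (g : ℝ) * N / (E / 2) ≤ 8 * g * L * N / E := by
        rw [div_div_eq_mul_div]
        apply div_le_div_of_nonneg_right _ hE0.le
        have : (0 : ℝ) ≤ g * N := by positivity
        nlinarith
      have e2 : (g : ℝ) * (1 + L) ≤ 2 * g * L * N / E := by
        rw [le_div_iff₀ hE0]
        have hg : (0 : ℝ) ≤ g := Nat.cast_nonneg g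
        calc (g : ℝ) * (1 + L) * E ≤ (g : ℝ) * (2 * L) * N := by
              apply mul_le_mul _ hEN hE0.le (by positivity)
              apply mul_le_mul_of_nonneg_left _ hg
              linarith
          _ = 2 * g * L * N := by ring
      calc 4 * (g : ℝ) * N / (E / 2) + g * (1 + Real.log H) ≤ 8 * g * L * N / E + 2 * g * L * N / E := add_le_add e1 e2
        _ = (8 * g + 2 * g) * L * N / E := by ring
    refine (sum_le_sum h1).trans ?_
    rw [sum_const, nsmul_eq_mul, Nat.card_Icc, Nat.add_sub_cancel]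
    exact mul_le_mul_of_nonneg_right (Nat.floor_le (by positivity)) (by positivity)
  have hW0 : ∀ a, 0 ≤ W a := fun a => sum_nonneg fun _ _ => sum_nonneg fun _ _ => by positivity
  have hsub : (Icc 1 N).filter (fun a => τ < ∑ p ∈ (Icc 1 H).filter (fun p : ℕ => p.Prime ∧ Lar (F a) H B p),
      (1 : ℝ) / p) ⊆ (Icc 1 N).filter (fun a => τ < W a) := by
    intro a ha
    rw [mem_filter] at ha ⊢
    refine ⟨ha.1, ha.2.trans_le ?_⟩
    have e2 : (Icc 1 H).filter (fun p : ℕ => p.Prime ∧ Lar (F a) H B p) ⊆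
        (Icc 1 ⌊L ^ B⌋₊).biUnion (fun h => P.filter (fun p => a % p ∈ R h p)) := by
      intro p hp
      rw [mem_filter] at hp
      obtain ⟨hp1, hpp, hpE, h, hh1, hh2, hh3⟩ := hp
      have hpP : p ∈ P := by rw [hP, mem_filter]; exact ⟨hp1, hpp, hpE⟩
      rw [mem_biUnion]
      refine ⟨h, mem_Icc.2 ⟨hh1, Nat.le_floor hh2⟩, mem_filter.2 ⟨hpP, hcls a h p hpp ?_ ?_ hh3⟩⟩
      · intro h4
        have h6 : (p : ℝ) ≤ h := by exact_mod_cast Nat.le_of_dvd hh1 h4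
        linarith
      · intro h4
        have h6 : (p : ℝ) ≤ d0 := by exact_mod_cast Nat.le_of_dvd hd0 h4
        linarith
    refine (sum_le_sum_of_subset_of_nonneg e2 fun _ _ _ => by positivity).trans ?_
    rw [hW]
    exact sum_biUnion_le' _ _ _ fun _ => by positivity
  have hmark : (((Icc 1 N).filter (fun a => τ < W a)).card : ℝ) * τ ≤ L ^ B * ((8 * g + 2 * g) * L * N / E) := by
    calc (((Icc 1 N).filter (fun a => τ < W a)).card : ℝ) * τ =
          ∑ _a ∈ (Icc 1 N).filter (fun a => τ < W a), τ := by rw [sum_const, nsmul_eq_mul]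
      _ ≤ ∑ a ∈ (Icc 1 N).filter (fun a => τ < W a), W a := sum_le_sum fun a ha => (mem_filter.1 ha).2.le
      _ ≤ ∑ a ∈ Icc 1 N, W a := sum_le_sum_of_subset_of_nonneg (filter_subset _ _) fun a _ _ => hW0 a
      _ ≤ _ := hWsum
  have hle : (((Icc 1 N).filter (fun a => τ < W a)).card : ℝ) ≤ N / L ^ A := by
    rw [← le_div_iff₀ (by positivity)] at hmark
    refine hmark.trans ?_
    rw [le_div_iff₀ (by positivity)]
    have h1 : (8 * g + 2 * g) / τ * L ^ (A + B + 1) ≤ E := k5.le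
    have h2 : L ^ B * ((8 * g + 2 * g) * L * N / E) / τ * L ^ A = N * (((8 * g + 2 * g) / τ * L ^ (A + B + 1)) / E) := by
      rw [pow_succ, pow_add]
      field_simp
    rw [h2]
    have h3 : ((8 * g + 2 * g) / τ * L ^ (A + B + 1)) / E ≤ 1 := (div_le_one hE0).2 h1
    calc (N : ℝ) * (((8 * g + 2 * g) / τ * L ^ (A + B + 1)) / E) ≤ N * 1 :=
          mul_le_mul_of_nonneg_left h3 (Nat.cast_nonneg _)
      _ = N := mul_one _
  refine le_trans ?_ hle
  exact_mod_cast card_le_card hsub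

lemma rt_le (F : ℤ → ℤ) (p : ℕ) : rt F p ≤ p := by
  unfold rt
  exact (card_filter_le _ _).trans (by rw [card_range])

lemma fac_bd (F : ℤ → ℤ) {p : ℕ} (hp : p.Prime) : 0 ≤ 1 - (rt F p : ℝ) / p ∧ 1 - (rt F p : ℝ) / p ≤ 1 := by
  have hp0 : (0 : ℝ) < p := by exact_mod_cast hp.pos
  have h1 : (rt F p : ℝ) ≤ p := by exact_mod_cast rt_le F p
  constructor
  · rw [sub_nonneg, div_le_one hp0]; exact h1
  · have : 0 ≤ (rt F p : ℝ) / p := by positivity
    linarith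

/-- the sieve product is at most the exponential of minus the sum over part of the primes -/
lemma V_le (F : ℤ → ℤ) {K : ℕ} {P : Finset ℕ} (hP : ∀ p ∈ P, p.Prime ∧ p ≤ K) :
    V F 1 K ≤ Real.exp (-∑ p ∈ P, (rt F p : ℝ) / p) := by
  unfold V PS
  have hsub : P ⊆ (Icc 1 K).filter (fun p => p.Prime ∧ ¬ p ∣ 1) := by
    intro p hp
    obtain ⟨h1, h2⟩ := hP p hp
    rw [mem_filter, mem_Icc]
    exact ⟨⟨h1.one_lt.le, h2⟩, h1, fun h3 => h1.one_lt.ne' (Nat.dvd_one.1 h3)⟩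
  rw [← prod_sdiff hsub]
  have h1 : ∏ p ∈ (Icc 1 K).filter (fun p => p.Prime ∧ ¬ p ∣ 1) \ P, (1 - (rt F p : ℝ) / p) ≤ 1 := by
    apply prod_le_one
    · intro p hp
      exact (fac_bd F (mem_filter.1 (Finset.mem_sdiff.1 hp).1).2.1).1
    · intro p hp
      exact (fac_bd F (mem_filter.1 (Finset.mem_sdiff.1 hp).1).2.1).2
  have h2 : 0 ≤ ∏ p ∈ P, (1 - (rt F p : ℝ) / p) := prod_nonneg fun p hp => (fac_bd F (hP p hp).1).1
  have h3 : ∏ p ∈ P, (1 - (rt F p : ℝ) / p) ≤ Real.exp (-∑ p ∈ P, (rt F p : ℝ) / p) := by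
    rw [← sum_neg_distrib, Real.exp_sum]
    apply Finset.prod_le_prod
    · exact fun p hp => (fac_bd F (hP p hp).1).1
    · intro p _
      have := Real.add_one_le_exp (-((rt F p : ℝ) / p))
      linarith
  calc _ ≤ 1 * ∏ p ∈ P, (1 - (rt F p : ℝ) / p) := mul_le_mul_of_nonneg_right h1 h2
    _ ≤ _ := by rw [one_mul]; exact h3

/-- **the sieve product for almost all members** -/
theorem famV (g d0 : ℕ) (ε : ℝ) (hε : 0 < ε) (hd0 : 1 ≤ d0) : ∃ C : ℝ, 0 < C ∧ ∃ H₀ : ℕ, ∀ H N : ℕ, H₀ ≤ H →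
    √(H : ℝ) ≤ N → ∀ F : ℕ → ℤ → ℤ,
    (∀ a p : ℕ, p.Prime → ¬ p ∣ d0 → rt (F a) p ≤ g) →
    (∀ a p : ℕ, p.Prime → ¬ p ∣ d0 → rt (F (p + a)) p = rt (F a) p) →
    (∀ p : ℕ, p.Prime → ¬ p ∣ d0 → p ≤ 1 + ∑ a ∈ range p, rt (F a) p) →
    (((Icc 1 N).filter (fun a => C / Real.log H < V (F a) 1 H)).card : ℝ) ≤ ε * N := by
  classical
  obtain ⟨C, hC0, hC⟩ := Pool.Agent.Helper256.KM.mertens_lower
  obtain ⟨z1, hz1⟩ := exists_nat_ge (4 * (g : ℝ) ^ 2 / ε)
  set z : ℕ := z1 + d0 + 4 with hz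
  have hz0 : (0 : ℝ) < z := by exact_mod_cast (by omega : 0 < z)
  set Z1 : ℝ := ∑ p ∈ (Icc 1 z).filter Nat.Prime, (1 : ℝ) / p with hZ1
  have tc : Tendsto (fun H : ℕ => (H : ℝ)) atTop atTop := tendsto_natCast_atTop_atTop
  have tp : Tendsto (fun H : ℕ => (H : ℝ) ^ (1 / 16 : ℝ)) atTop atTop := (tendsto_rpow_atTop (by norm_num)).comp tc
  have tq : Tendsto (fun H : ℕ => (H : ℝ) ^ (1 / 4 : ℝ)) atTop atTop := (tendsto_rpow_atTop (by norm_num)).comp tc
  obtain ⟨H₀, hH₀⟩ := eventually_atTop.1 ((tc.eventually_ge_atTop 3).and ((tp.eventually_ge_atTop ((z : ℝ) + 4)).and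
    (tq.eventually_ge_atTop (2 * (g : ℝ) ^ 2 / ε))))
  refine ⟨16 * Real.exp (C + Z1 + 2), by positivity, H₀, fun H N hH hHN F hg hper hmean => ?_⟩
  obtain ⟨k1, k2, k3⟩ := hH₀ H hH
  have hHp : (0 : ℝ) < H := by linarith
  have hlogH : 0 < Real.log (H : ℝ) := Real.log_pos (by linarith)
  have hsqH : √(H : ℝ) = (H : ℝ) ^ (1 / 4 : ℝ) * (H : ℝ) ^ (1 / 4 : ℝ) := by
    rw [← Real.rpow_add hHp, Real.sqrt_eq_rpow]
    norm_num
  set y : ℕ := ⌊(H : ℝ) ^ (1 / 8 : ℝ)⌋₊ with hy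
  have hyu : (y : ℝ) ≤ (H : ℝ) ^ (1 / 8 : ℝ) := Nat.floor_le (by positivity)
  have h14 : (H : ℝ) ^ (1 / 8 : ℝ) = (H : ℝ) ^ (1 / 16 : ℝ) * (H : ℝ) ^ (1 / 16 : ℝ) := by
    rw [← Real.rpow_add hHp]; norm_num
  have hyl : (H : ℝ) ^ (1 / 16 : ℝ) ≤ y := by
    have h1 := Nat.lt_floor_add_one ((H : ℝ) ^ (1 / 8 : ℝ))
    rw [← hy, h14] at h1
    nlinarith
  have hyH : y ≤ H := by
    have h1 : (y : ℝ) ≤ H := hyu.trans (by
      calc (H : ℝ) ^ (1 / 8 : ℝ) ≤ (H : ℝ) ^ (1 : ℝ) := Real.rpow_le_rpow_of_exponent_le (by linarith) (by norm_num)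
        _ = H := Real.rpow_one _)
    exact_mod_cast h1
  have hzy : z ≤ y := by
    have : (z : ℝ) ≤ y := by linarith
    exact_mod_cast this
  have hy2 : (2 : ℝ) ≤ y := by linarith
  have hlogy : Real.log H / 16 ≤ Real.log y := by
    have h1 := Real.log_le_log (by positivity) hyl
    rw [Real.log_rpow hHp] at h1
    linarith
  have hlogy0 : 0 < Real.log (y : ℝ) := lt_of_lt_of_le (by positivity) hlogy
  set P : Finset ℕ := (Ioc z y).filter Nat.Prime with hP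
  have hPp : ∀ p ∈ P, p.Prime ∧ z < p ∧ p ≤ y ∧ ¬ p ∣ d0 := by
    intro p hp
    rw [hP, mem_filter, mem_Ioc] at hp
    refine ⟨hp.2, hp.1.1, hp.1.2, fun h1 => ?_⟩
    have := Nat.le_of_dvd hd0 h1
    omega
  -- the mean values
  set m : ℕ → ℝ := fun p => (∑ a ∈ range p, (rt (F a) p : ℝ)) / p with hm
  have hm1 : ∀ p ∈ P, 1 - 1 / (p : ℝ) ≤ m p := by
    intro p hp
    have hpp := (hPp p hp).1
    have hp0 : (0 : ℝ) < p := by exact_mod_cast hpp.pos
    have h1 : (p : ℝ) ≤ 1 + ∑ a ∈ range p, (rt (F a) p : ℝ) := by exact_mod_cast hmean p hpp (hPp p hp).2.2.2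
    rw [hm]
    simp only
    rw [le_div_iff₀ hp0, sub_mul, one_mul, one_div, inv_mul_cancel₀ hp0.ne']
    linarith
  have hm2 : ∀ p ∈ P, 0 ≤ m p ∧ m p ≤ g := by
    intro p hp
    have hpp := (hPp p hp).1
    have hp0 : (0 : ℝ) < p := by exact_mod_cast hpp.pos
    refine ⟨by rw [hm]; positivity, ?_⟩
    rw [hm]
    simp only
    rw [div_le_iff₀ hp0]
    calc ∑ a ∈ range p, (rt (F a) p : ℝ) ≤ ∑ _a ∈ range p, (g : ℝ) :=
          sum_le_sum fun a _ => by exact_mod_cast hg a p hpp (hPp p hp).2.2.2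
      _ = g * p := by rw [sum_const, card_range, nsmul_eq_mul, mul_comm]
  set f : ℕ → ℕ → ℝ := fun p n => (rt (F (n + 1)) p : ℝ) - m p with hf
  have h1 := var P f g (Nat.cast_nonneg _) (fun p hp => (hPp p hp).1) (by
      intro p hp n
      simp only [hf]
      rw [show p + n + 1 = p + (n + 1) by ring, hper _ p (hPp p hp).1 (hPp p hp).2.2.2]) (by
      intro p hp
      have hp0 : (0 : ℝ) < p := by exact_mod_cast (hPp p hp).1.pos
      simp only [hf]
      rw [sum_sub_distrib, sum_const, card_range, nsmul_eq_mul]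
      have e1 := sum_range_succ (fun a : ℕ => (rt (F a) p : ℝ)) p
      have e2 := sum_range_succ' (fun a : ℕ => (rt (F a) p : ℝ)) p
      have e3 : (p : ℝ) * m p = ∑ a ∈ range p, (rt (F a) p : ℝ) := by
        rw [hm]
        simp only
        rw [mul_div_cancel₀ _ hp0.ne']
      have e4 : rt (F p) p = rt (F 0) p := by
        have := hper 0 p (hPp p hp).1 (hPp p hp).2.2.2
        rwa [add_zero] at this
      rw [e1] at e2
      rw [e4] at e2
      rw [e3]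
      linarith) (by
      intro p hp n
      simp only [hf]
      have h3 : (rt (F (n + 1)) p : ℝ) ≤ g := by exact_mod_cast hg (n + 1) p (hPp p hp).1 (hPp p hp).2.2.2
      have h4 : (0 : ℝ) ≤ rt (F (n + 1)) p := Nat.cast_nonneg _
      obtain ⟨h5, h6⟩ := hm2 p hp
      rw [abs_le]
      constructor <;> linarith) N
  set Bd : Finset ℕ := (Icc 1 N).filter (fun a : ℕ => ∑ p ∈ P, ((rt (F a) p : ℝ) - m p) / p < -1) with hBd
  have h2 : (Bd.card : ℝ) ≤ ∑ n ∈ range N, (∑ p ∈ P, f p n / p) ^ 2 := by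
    rw [hBd, card_filter]
    push_cast
    have e1 : ∑ a ∈ Icc 1 N, (if ∑ p ∈ P, ((rt (F a) p : ℝ) - m p) / p < -1 then (1 : ℝ) else 0) =
        ∑ n ∈ range N, (if ∑ p ∈ P, f p n / p < -1 then (1 : ℝ) else 0) := by
      rw [show Icc 1 N = Ico 1 (N + 1) by (ext x; simp only [mem_Icc, mem_Ico]; omega), sum_Ico_eq_sum_range]
      apply sum_congr (by rw [Nat.add_sub_cancel])
      intro n _
      simp only [hf]
      rw [add_comm 1 n]
    rw [e1]
    apply sum_le_sum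
    intro n _
    split_ifs with h3
    · nlinarith
    · positivity
  have h3 : ∑ p ∈ P, 1 / (p : ℝ) ^ 2 ≤ (2 : ℝ) / z :=
    sum_sq (by have : (4 : ℝ) ≤ z := by exact_mod_cast (by omega : 4 ≤ z)
               linarith) P y fun p hp => ⟨by exact_mod_cast (hPp p hp).2.1, (hPp p hp).2.2.1⟩
  have h4 : (P.card : ℝ) ≤ y := by
    have : P.card ≤ y := by
      calc P.card ≤ (Icc 1 y).card := by
            apply card_le_card
            intro p hp
            rw [mem_Icc]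
            exact ⟨(hPp p hp).1.one_lt.le, (hPp p hp).2.2.1⟩
        _ = y := by rw [Nat.card_Icc, Nat.add_sub_cancel]
    exact_mod_cast this
  have hBdc : (Bd.card : ℝ) ≤ ε * N := by
    refine (h2.trans h1).trans ?_
    have g1 : (N : ℝ) * (g : ℝ) ^ 2 * ∑ p ∈ P, 1 / (p : ℝ) ^ 2 ≤ ε * N / 2 := by
      have e1 : 4 * (g : ℝ) ^ 2 / ε ≤ z := hz1.trans (by exact_mod_cast (by omega : z1 ≤ z))
      rw [div_le_iff₀ hε] at e1
      have hN0 : (0 : ℝ) ≤ N := Nat.cast_nonneg N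
      calc (N : ℝ) * (g : ℝ) ^ 2 * ∑ p ∈ P, 1 / (p : ℝ) ^ 2 ≤ (N : ℝ) * (g : ℝ) ^ 2 * (2 / z) :=
            mul_le_mul_of_nonneg_left h3 (by positivity)
        _ ≤ ε * N / 2 := by
          rw [mul_div_assoc', div_le_iff₀ hz0]
          nlinarith
    have g2 : (g : ℝ) ^ 2 * (P.card : ℝ) ^ 2 ≤ ε * N / 2 := by
      have e1 : (y : ℝ) ^ 2 ≤ (H : ℝ) ^ (1 / 4 : ℝ) := by
        calc (y : ℝ) ^ 2 ≤ ((H : ℝ) ^ (1 / 8 : ℝ)) ^ 2 := pow_le_pow_left₀ (Nat.cast_nonneg _) hyu 2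
          _ = (H : ℝ) ^ (1 / 4 : ℝ) := by
            rw [← Real.rpow_natCast, ← Real.rpow_mul hHp.le]
            congr 1
            norm_num
      rw [div_le_iff₀ hε] at k3
      have e3 : 0 < (H : ℝ) ^ (1 / 4 : ℝ) := by positivity
      calc (g : ℝ) ^ 2 * (P.card : ℝ) ^ 2 ≤ (g : ℝ) ^ 2 * (y : ℝ) ^ 2 := by gcongr
        _ ≤ (g : ℝ) ^ 2 * (H : ℝ) ^ (1 / 4 : ℝ) := mul_le_mul_of_nonneg_left e1 (by positivity)
        _ ≤ ((H : ℝ) ^ (1 / 4 : ℝ) * ε / 2) * (H : ℝ) ^ (1 / 4 : ℝ) :=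
            mul_le_mul_of_nonneg_right (by linarith) e3.le
        _ = ε * ((H : ℝ) ^ (1 / 4 : ℝ) * (H : ℝ) ^ (1 / 4 : ℝ)) / 2 := by ring
        _ = ε * √(H : ℝ) / 2 := by rw [hsqH]
        _ ≤ ε * N / 2 := by
          apply div_le_div_of_nonneg_right _ (by norm_num)
          exact mul_le_mul_of_nonneg_left hHN hε.le
    linarith
  refine le_trans ?_ hBdc
  have hsub : (Icc 1 N).filter (fun a => 16 * Real.exp (C + Z1 + 2) / Real.log H < V (F a) 1 H) ⊆ Bd := by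
    intro a ha
    rw [mem_filter] at ha
    rw [hBd, mem_filter]
    refine ⟨ha.1, ?_⟩
    by_contra hcon
    have hcon := not_lt.1 hcon
    apply absurd ha.2 (not_lt.2 _)
    have e1 : ∑ p ∈ P, ((rt (F a) p : ℝ) - m p) / p = ∑ p ∈ P, (rt (F a) p : ℝ) / p - ∑ p ∈ P, m p / p := by
      rw [← sum_sub_distrib]
      refine sum_congr rfl fun p _ => ?_
      rw [sub_div]
    have e2 : ∑ p ∈ P, (1 : ℝ) / p - ∑ p ∈ P, 1 / (p : ℝ) ^ 2 ≤ ∑ p ∈ P, m p / p := by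
      rw [← sum_sub_distrib]
      apply sum_le_sum
      intro p hp
      have hp0 : (0 : ℝ) < p := by exact_mod_cast (hPp p hp).1.pos
      calc (1 : ℝ) / p - 1 / (p : ℝ) ^ 2 = (1 - 1 / (p : ℝ)) / p := by field_simp
        _ ≤ m p / p := div_le_div_of_nonneg_right (hm1 p hp) hp0.le
    have e3 : (2 : ℝ) / z ≤ 1 := by
      rw [div_le_one hz0]
      have : (4 : ℝ) ≤ z := by exact_mod_cast (by omega : 4 ≤ z)
      linarith
    have e4 : Real.log (Real.log (y : ℝ)) - C ≤ Z1 + ∑ p ∈ P, (1 : ℝ) / p := by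
      have h5 := hC y hy2
      rw [Nat.floor_natCast] at h5
      refine h5.trans (le_of_eq ?_)
      rw [hZ1, hP, ← sum_union]
      · congr 1
        ext p
        simp only [mem_union, mem_filter, mem_Icc, mem_Ioc]
        constructor
        · rintro ⟨⟨a, b⟩, c⟩
          by_cases h : p ≤ z
          · exact Or.inl ⟨⟨a, h⟩, c⟩
          · exact Or.inr ⟨⟨by omega, b⟩, c⟩
        · rintro (⟨⟨a, b⟩, c⟩ | ⟨⟨a, b⟩, c⟩)
          · exact ⟨⟨a, by omega⟩, c⟩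
          · exact ⟨⟨c.one_lt.le, b⟩, c⟩
      · rw [disjoint_left]
        intro p hp hq
        rw [mem_filter, mem_Icc] at hp
        rw [mem_filter, mem_Ioc] at hq
        omega
    have e5 : -∑ p ∈ P, (rt (F a) p : ℝ) / p ≤ (C + Z1 + 2) - Real.log (Real.log (y : ℝ)) := by
      linarith
    calc V (F a) 1 H ≤ Real.exp (-∑ p ∈ P, (rt (F a) p : ℝ) / p) :=
          V_le (F a) fun p hp => ⟨(hPp p hp).1, (hPp p hp).2.2.1.trans hyH⟩
      _ ≤ Real.exp ((C + Z1 + 2) - Real.log (Real.log (y : ℝ))) := Real.exp_le_exp.2 e5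
      _ = Real.exp (C + Z1 + 2) / Real.log y := by rw [Real.exp_sub, Real.exp_log hlogy0]
      _ ≤ Real.exp (C + Z1 + 2) / (Real.log H / 16) :=
          div_le_div_of_nonneg_left (Real.exp_pos _).le (by positivity) hlogy
      _ = _ := by field_simp
  exact_mod_cast card_le_card hsub

/-- **Szemerédi's theorem for almost all members** -/
theorem fam (k g d0 : ℕ) (κ ε : ℝ) (hk : 2 ≤ k) (hκ : 0 < κ) (hε : 0 < ε) (hd0 : 1 ≤ d0) : ∃ B H₀ : ℕ,
    ∀ H N : ℕ, H₀ ≤ H → √(H : ℝ) ≤ N → ∀ (F : ℕ → ℤ → ℤ) (R : ℕ → ℕ → Finset ℕ),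
    (∀ a p : ℕ, p.Prime → ¬ p ∣ d0 → rt (F a) p ≤ g) → (∀ t p, (R t p).card ≤ g) →
    (∀ a t p : ℕ, p.Prime → ¬ p ∣ t → ¬ p ∣ d0 → CF (F a) t p → a % p ∈ R t p) →
    (∀ a p : ℕ, p.Prime → ¬ p ∣ d0 → rt (F (p + a)) p = rt (F a) p) →
    (∀ p : ℕ, p.Prime → ¬ p ∣ d0 → p ≤ 1 + ∑ a ∈ range p, rt (F a) p) →
    ∃ Bad ⊆ Icc 1 N, (Bad.card : ℝ) ≤ ε * N ∧ ∀ a ∈ Icc 1 N, a ∉ Bad → SysP g (F a) →
      (∀ n ∈ Ioc 0 H, F a (n : ℤ) ≠ 0 ∧ |F a (n : ℤ)| ≤ (H : ℤ) ^ g) →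
      ∀ Z ⊆ Ioc 0 H, (∀ n ∈ Z, ∀ p : ℕ, p.Prime → (p : ℝ) ≤ (H : ℝ) ^ (1 / 2 : ℝ) → ¬ (p : ℤ) ∣ F a (n : ℤ)) →
      κ * (H / Real.log H) ≤ Z.card →
      ∃ x d : ℕ, 1 ≤ d ∧ (d : ℝ) ≤ Real.log H ^ B ∧ ∀ i < k, x + i * d ∈ Z := by
  classical
  obtain ⟨C, hC, x1, hV⟩ := famV g d0 (ε / 3) (by positivity) hd0
  obtain ⟨η, hη, B, x2, heng⟩ := one k g (κ / C) hk (by positivity)
  obtain ⟨x3, hmed⟩ := famMed g d0 B 1 η hη hd0
  obtain ⟨x4, hlar⟩ := famLar g d0 B 1 (1 / (4 * (g + 1))) (by positivity) hd0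
  have tc : Tendsto (fun H : ℕ => (H : ℝ)) atTop atTop := tendsto_natCast_atTop_atTop
  have tl : Tendsto (fun H : ℕ => Real.log (H : ℝ)) atTop atTop := Real.tendsto_log_atTop.comp tc
  have tll : Tendsto (fun H : ℕ => Real.log (Real.log (H : ℝ))) atTop atTop := Real.tendsto_log_atTop.comp tl
  obtain ⟨x5, hx5⟩ := eventually_atTop.1 ((tl.eventually_ge_atTop (3 / ε)).and ((tl.eventually_ge_atTop 1).and
    (tll.eventually_ge_atTop 0)))
  refine ⟨B, max x1 (max x2 (max x3 (max x4 x5))), fun H N hH hHN F R hg hR hcls hper hmean => ?_⟩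
  simp only [max_le_iff] at hH
  obtain ⟨y1, y2, y3, y4, y5⟩ := hH
  obtain ⟨k1, k2, k3⟩ := hx5 H y5
  have hV' := hV H N y1 hHN F hg hper hmean
  have hmed' := hmed H N y3 hHN F R hR hcls
  have hlar' := hlar H N y4 hHN F R hR hcls
  set L := Real.log (H : ℝ) with hL
  have hL0 : 0 < L := by linarith
  set B1 := (Icc 1 N).filter (fun a => C / L < V (F a) 1 H) with hB1
  set B2 := (Icc 1 N).filter (fun a => ∃ t : ℕ, 1 ≤ t ∧ (t : ℝ) ≤ L ^ B ∧
      η < ∑ p ∈ (Pm H).filter (fun p => CF (F a) t p), (1 : ℝ) / p) with hB2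
  set B3 := (Icc 1 N).filter (fun a => 1 / (4 * ((g : ℝ) + 1)) < ∑ p ∈ (Icc 1 H).filter (fun p : ℕ => p.Prime ∧
      Lar (F a) H B p), (1 : ℝ) / p) with hB3
  have hHL : (N : ℝ) / L ^ 1 ≤ ε / 3 * N := by
    rw [pow_one, div_le_iff₀ hL0]
    have h1 : 1 ≤ ε / 3 * L := by
      have := mul_le_mul_of_nonneg_left k1 (show 0 ≤ ε / 3 by positivity)
      have e : ε / 3 * (3 / ε) = 1 := by field_simp
      linarith
    nlinarith [(Nat.cast_nonneg N : (0 : ℝ) ≤ _)]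
  refine ⟨B1 ∪ B2 ∪ B3, ?_, ?_, ?_⟩
  · exact union_subset (union_subset (filter_subset _ _) (filter_subset _ _)) (filter_subset _ _)
  · have h1 : ((B1 ∪ B2 ∪ B3).card : ℝ) ≤ B1.card + B2.card + B3.card := by
      have h2 := card_union_le (B1 ∪ B2) B3
      have h3 := card_union_le B1 B2
      have h4 : (B1 ∪ B2 ∪ B3).card ≤ B1.card + B2.card + B3.card := by omega
      exact_mod_cast h4
    linarith
  · intro a ha hbad hsys hsize Z hZ hZp hZc
    rw [mem_union, mem_union, not_or, not_or] at hbad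
    obtain ⟨⟨n1, n2⟩, n3⟩ := hbad
    have m1 : V (F a) 1 H ≤ C / L := by
      by_contra hcon
      exact n1 (mem_filter.2 ⟨ha, not_le.1 hcon⟩)
    have m3 : ∑ p ∈ (Icc 1 H).filter (fun p : ℕ => p.Prime ∧ Lar (F a) H B p), (1 : ℝ) / p ≤ 1 / (4 * (g + 1)) := by
      by_contra hcon
      exact n3 (mem_filter.2 ⟨ha, not_le.1 hcon⟩)
    refine heng (F a) 0 H Z hsys y2 ?_ ?_ m3 ?_ hZp ?_
    · intro n hn
      rw [zero_add] at hn
      exact hsize n hn
    · intro t ht1 ht2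
      by_contra hcon
      apply n2
      rw [hB2, mem_filter]
      refine ⟨ha, t, ht1, ht2, (not_le.1 hcon).trans_le ?_⟩
      apply sum_le_sum_of_subset_of_nonneg
      · intro p hp
        rw [mem_filter] at hp
        rw [mem_filter, mem_Pm]
        obtain ⟨-, q1, q2, q3, q4⟩ := hp
        refine ⟨⟨q1, ?_, q3.le⟩, q4⟩
        have : 0 ≤ Real.log (Real.log (H : ℝ)) := k3
        linarith
      · intro _ _ _
        positivity
    · rw [zero_add]
      exact hZ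
    · refine le_trans ?_ hZc
      calc κ / C * (H * V (F a) 1 H) ≤ κ / C * (H * (C / L)) := by
            apply mul_le_mul_of_nonneg_left _ (by positivity)
            exact mul_le_mul_of_nonneg_left m1 (Nat.cast_nonneg _)
        _ = κ * (H / L) := by field_simp

end Pool.Agent.U497.SF
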