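import Pool.Agent.U497.SF.Quad

/-!
# The family `A X² + (b n + e) X + c`, `n ≤ N` (helper497)
-/

set_option autoImplicit false

namespace Pool.Agent.U497.SF

open Finset Polynomial Filter Topology

open Pool.Agent.Y677.RSZ (rt V)
open Pool.Agent.K3h89.SZ (SysP CF)
open Pool.Agent.H300R2.BH (rho)
open Pool.Agent.U497.SP (fn sysP InP few)

/-- `A X² + (b n + e) X + c` -/
noncomputable def Lp (A b e c : ℤ) (n : ℕ) : ℤ[X] := C A * X ^ 2 + C (b * n + e) * X + C c

lemma fn_Lp (A b e c : ℤ) (n : ℕ) (x : ℤ) : fn (Lp A b e c n) x = A * x ^ 2 + (b * n + e) * x + c := by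
  unfold fn Lp
  simp

lemma Lp_deg (A b e c : ℤ) (n : ℕ) : (Lp A b e c n).natDegree ≤ 3 := by
  unfold Lp
  refine (natDegree_add_le _ _).trans (max_le ((natDegree_add_le _ _).trans (max_le ?_ ?_)) ?_)
  · exact (natDegree_C_mul_X_pow_le A 2).trans (by norm_num)
  · exact (natDegree_C_mul_le (b * n + e) X).trans (natDegree_X_le.trans (by norm_num))
  · rw [natDegree_C]
    norm_num

/-- a polynomial without fixed prime divisor gives a system -/
lemma sys_of {F : ℤ[X]} (hd : F.natDegree ≤ 3) (h : ∀ p : ℕ, p.Prime → ∃ x : ℤ, ¬ (p : ℤ) ∣ F.eval x) :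
    SysP 3 (fn F) := by
  apply sysP hd
  intro p hp h0
  obtain ⟨x, hx⟩ := h p hp
  apply hx
  have hall : ∀ x ∈ range p, (p : ℤ) ∣ F.eval (x : ℤ) := by
    unfold rho at h0
    have h1 : (range p).filter (fun k : ℕ => (p : ℤ) ∣ F.eval (k : ℤ)) = range p := by
      apply eq_of_subset_of_card_le (filter_subset _ _)
      rw [h0, card_range]
    intro x hx
    rw [← h1, mem_filter] at hx
    exact hx.2
  have hpz : (0 : ℤ) < p := by exact_mod_cast hp.pos
  have e1 : (((x % (p : ℤ)).toNat : ℕ) : ℤ) = x % p := Int.toNat_of_nonneg (Int.emod_nonneg x hpz.ne')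
  have h2 : (x % (p : ℤ)).toNat ∈ range p := by
    rw [mem_range]
    have := Int.emod_lt_of_pos x hpz
    omega
  have h3 := hall _ h2
  rw [e1] at h3
  exact (Pool.Agent.U497.SP.dvd_shift F p x (x % p) Int.dvd_self_sub_emod).2 h3

/-- a quadratic polynomial has at most two roots -/
lemma two_roots {p : ℕ} (hp : p.Prime) {A β c : ℤ} (hA : ¬ (p : ℤ) ∣ A) :
    ((range p).filter (fun x : ℕ => (p : ℤ) ∣ A * (x : ℤ) ^ 2 + β * x + c)).card ≤ 2 := by
  have hpz : Prime (p : ℤ) := Nat.prime_iff_prime_int.1 hp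
  have hd : ∀ x y : ℕ, x < p → y < p → x ≠ y → ¬ (p : ℤ) ∣ (x : ℤ) - y := by
    intro x y hx hy hxy h
    apply hxy
    have h1 : (x : ℤ) - y = 0 := by
      apply Int.eq_zero_of_abs_lt_dvd h
      rw [abs_lt]
      constructor <;> omega
    omega
  by_contra hcon
  obtain ⟨x, hx, y, hy, z, hz, hxy, hxz, hyz⟩ := two_lt_card.1 (not_le.1 hcon)
  rw [mem_filter, mem_range] at hx hy hz
  have e1 : (p : ℤ) ∣ ((x : ℤ) - y) * (A * (x + y) + β) := by
    have := dvd_sub hx.2 hy.2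
    rwa [show A * (x : ℤ) ^ 2 + β * x + c - (A * (y : ℤ) ^ 2 + β * y + c) = ((x : ℤ) - y) * (A * (x + y) + β) by ring] at this
  have e2 : (p : ℤ) ∣ ((x : ℤ) - z) * (A * (x + z) + β) := by
    have := dvd_sub hx.2 hz.2
    rwa [show A * (x : ℤ) ^ 2 + β * x + c - (A * (z : ℤ) ^ 2 + β * z + c) = ((x : ℤ) - z) * (A * (x + z) + β) by ring] at this
  have f1 := (hpz.dvd_or_dvd e1).resolve_left (hd x y hx.1 hy.1 hxy)
  have f2 := (hpz.dvd_or_dvd e2).resolve_left (hd x z hx.1 hz.1 hxz)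
  have f3 : (p : ℤ) ∣ A * ((y : ℤ) - z) := by
    have := dvd_sub f1 f2
    rwa [show A * ((x : ℤ) + y) + β - (A * ((x : ℤ) + z) + β) = A * ((y : ℤ) - z) by ring] at this
  rcases hpz.dvd_or_dvd f3 with h | h
  · exact hA h
  · exact hd y z hy.1 hz.1 hyz h

lemma rt_Lp {A b e c : ℤ} {n p : ℕ} (hp : p.Prime) (hA : ¬ (p : ℤ) ∣ A) : rt (fn (Lp A b e c n)) p ≤ 3 := by
  have h1 := two_roots hp hA (β := b * n + e) (c := c)
  have h2 : rt (fn (Lp A b e c n)) p =
      ((range p).filter (fun x : ℕ => (p : ℤ) ∣ A * (x : ℤ) ^ 2 + (b * n + e) * x + c)).card := by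
    unfold rt
    congr 1
    apply filter_congr
    intro x _
    rw [fn_Lp]
  omega

open Classical in
/-- the classes of `n` for which `p` divides two values at distance `t` -/
noncomputable def Rl (A b e c : ℤ) (t p : ℕ) : Finset ℕ :=
  if p.Prime ∧ ¬ (p : ℤ) ∣ b then
    (range p).filter (fun r : ℕ => (p : ℤ) ∣ (b * r + e) ^ 2 - 4 * A * c - A ^ 2 * t ^ 2) else ∅

lemma card_Rl (A b e c : ℤ) (t p : ℕ) : (Rl A b e c t p).card ≤ 3 := by
  classical
  unfold Rl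
  split_ifs with h
  · obtain ⟨hp, hpb⟩ := h
    haveI : Fact p.Prime := ⟨hp⟩
    have hb : ((b : ℤ) : ZMod p) ≠ 0 := by
      intro h0
      exact hpb ((ZMod.intCast_zmod_eq_zero_iff_dvd _ p).1 h0)
    set T := (nthRoots 2 ((4 * A * c + A ^ 2 * t ^ 2 : ℤ) : ZMod p)).toFinset with hT
    have h1 : ((range p).filter (fun r : ℕ => (p : ℤ) ∣ (b * r + e) ^ 2 - 4 * A * c - A ^ 2 * t ^ 2)).card ≤ T.card := by
      apply card_le_card_of_injOn (fun r : ℕ => (b * r + e : ZMod p))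
      · intro r hr
        rw [mem_coe, mem_filter] at hr
        rw [mem_coe, hT, Multiset.mem_toFinset, mem_nthRoots (by norm_num)]
        have h2 := (ZMod.intCast_zmod_eq_zero_iff_dvd _ p).2 hr.2
        push_cast at h2 ⊢
        linear_combination h2
      · intro r hr s hs hrs
        rw [mem_coe, mem_filter, mem_range] at hr hs
        simp only at hrs
        have h2 : (b : ZMod p) * r = (b : ZMod p) * s := by linear_combination hrs
        have h3 := mul_left_cancel₀ hb h2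
        have h4 := (ZMod.natCast_eq_natCast_iff' r s p).1 h3
        rwa [Nat.mod_eq_of_lt hr.1, Nat.mod_eq_of_lt hs.1] at h4
    refine h1.trans ((Multiset.toFinset_card_le _).trans ((card_nthRoots 2 _).trans (by norm_num)))
  · simp

lemma cls_Rl {A b e c : ℤ} {n t p : ℕ} (hp : p.Prime) (ht : ¬ p ∣ t) (hd : ¬ (p : ℤ) ∣ b)
    (hcf : CF (fn (Lp A b e c n)) t p) : n % p ∈ Rl A b e c t p := by
  classical
  have hpz : Prime (p : ℤ) := Nat.prime_iff_prime_int.1 hp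
  obtain ⟨x, h1, h2⟩ := hcf
  rw [fn_Lp] at h1 h2
  have h3 := dvd_sub h2 h1
  rw [show A * (x + (t : ℤ)) ^ 2 + (b * n + e) * (x + t) + c - (A * x ^ 2 + (b * n + e) * x + c) =
    (t : ℤ) * (2 * A * x + A * t + (b * n + e)) by ring] at h3
  have h4 : (p : ℤ) ∣ 2 * A * x + A * t + (b * n + e) := by
    refine (hpz.dvd_or_dvd h3).resolve_left fun h5 => ht ?_
    exact_mod_cast h5
  have h5 : (p : ℤ) ∣ (b * n + e) ^ 2 - 4 * A * c - A ^ 2 * t ^ 2 := by
    have h6 : (p : ℤ) ∣ 4 * A * (A * x ^ 2 + (b * n + e) * x + c) := h1.mul_left _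
    have h7 : (p : ℤ) ∣ (2 * A * x + A * t + (b * n + e)) * (2 * A * x + (b * n + e) - A * t) := h4.mul_right _
    have h8 := dvd_sub h7 h6
    rwa [show (2 * A * x + A * t + (b * n + e)) * (2 * A * x + (b * n + e) - A * t) -
      4 * A * (A * x ^ 2 + (b * n + e) * x + c) = (b * n + e) ^ 2 - 4 * A * c - A ^ 2 * t ^ 2 by ring] at h8
  unfold Rl
  rw [if_pos ⟨hp, hd⟩, mem_filter, mem_range]
  refine ⟨Nat.mod_lt _ hp.pos, ?_⟩
  have h9 : (p : ℤ) ∣ (n : ℤ) - ((n % p : ℕ) : ℤ) := by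
    push_cast
    exact Int.dvd_self_sub_emod
  have h10 : (p : ℤ) ∣ ((n : ℤ) - ((n % p : ℕ) : ℤ)) * (b * (b * (n + ((n % p : ℕ) : ℤ)) + 2 * e)) := h9.mul_right _
  have h11 := dvd_sub h5 h10
  rwa [show (b * (n : ℤ) + e) ^ 2 - 4 * A * c - A ^ 2 * t ^ 2 -
    ((n : ℤ) - ((n % p : ℕ) : ℤ)) * (b * (b * (n + ((n % p : ℕ) : ℤ)) + 2 * e)) =
    (b * ((n % p : ℕ) : ℤ) + e) ^ 2 - 4 * A * c - A ^ 2 * t ^ 2 by ring] at h11

lemma per_L (A b e c : ℤ) (n p : ℕ) : rt (fn (Lp A b e c (p + n))) p = rt (fn (Lp A b e c n)) p := by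
  unfold rt
  congr 1
  apply filter_congr
  intro x _
  rw [fn_Lp, fn_Lp]
  have h1 : (p : ℤ) ∣ (p : ℤ) * (b * x) := dvd_mul_right _ _
  have e : A * (x : ℤ) ^ 2 + (b * ((p + n : ℕ) : ℤ) + e) * x + c =
      A * (x : ℤ) ^ 2 + (b * n + e) * x + c + (p : ℤ) * (b * x) := by
    push_cast
    ring
  rw [e]
  exact (Int.dvd_add_left h1)

lemma mean_L (A b e c : ℤ) {p : ℕ} (hp : p.Prime) (hd : ¬ (p : ℤ) ∣ b) :
    p ≤ 1 + ∑ n ∈ range p, rt (fn (Lp A b e c n)) p := by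
  classical
  haveI : Fact p.Prime := ⟨hp⟩
  have hb0 : (b : ZMod p) ≠ 0 := by
    intro h0
    exact hd ((ZMod.intCast_zmod_eq_zero_iff_dvd _ p).1 h0)
  set W : Finset (ℕ × ℕ) := (range p ×ˢ range p).filter
    (fun w => (p : ℤ) ∣ A * (w.2 : ℤ) ^ 2 + (b * w.1 + e) * w.2 + c) with hW
  have h1 : ∑ n ∈ range p, rt (fn (Lp A b e c n)) p = W.card := by
    rw [hW, card_filter, sum_product]
    refine sum_congr rfl fun n _ => ?_
    unfold rt
    rw [card_filter]
    refine sum_congr rfl fun x _ => ?_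
    rw [fn_Lp]
  rw [h1]
  have hinj : ((univ : Finset (ZMod p)).erase 0).card ≤ W.card := by
    apply card_le_card_of_injOn (fun v : ZMod p => ((((-c / v - A * v - e) / b : ZMod p)).val, v.val))
    · intro v hv
      rw [mem_coe, mem_erase] at hv
      rw [mem_coe, hW, mem_filter, mem_product, mem_range, mem_range]
      refine ⟨⟨ZMod.val_lt _, ZMod.val_lt _⟩, ?_⟩
      rw [← ZMod.intCast_zmod_eq_zero_iff_dvd]
      push_cast
      simp only [ZMod.natCast_zmod_val]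
      have hv0 := hv.1
      field_simp
      ring
    · intro v hv w hw hvw
      simp only [Prod.mk.injEq] at hvw
      exact ZMod.val_injective p hvw.2
  rw [card_erase_of_mem (mem_univ _), card_univ, ZMod.card] at hinj
  omega

/-- the arguments `x ≤ T` with prime value -/
def PL (A b e c : ℤ) (n T : ℕ) : Finset ℕ :=
  (Icc 1 T).filter (fun x : ℕ => (A * (x : ℤ) ^ 2 + (b * n + e) * x + c).toNat.Prime)

/-- **main theorem** for the family -/
theorem line (A b e c : ℤ) (hA : A ≠ 0) (hb : b ≠ 0) (k : ℕ) (hk : 2 ≤ k) (U : ℕ) (δ ε : ℝ) (hδ : 0 < δ) (hε : 0 < ε) :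
    ∃ B H₀ : ℕ, ∀ N T : ℕ, H₀ ≤ N → (N : ℝ) ≤ T * Real.log N ^ U → T ≤ N →
      ∃ Bad ⊆ Icc 1 N, (Bad.card : ℝ) ≤ ε * N ∧ ∀ n ∈ Icc 1 N, n ∉ Bad →
        (∀ p : ℕ, p.Prime → ∃ x : ℤ, ¬ (p : ℤ) ∣ A * x ^ 2 + (b * n + e) * x + c) → ∀ S ⊆ PL A b e c n T,
        (Set.ncard {x : ℕ | x ∈ S ∧ ¬ InP S k (Real.log N ^ B) x} : ℝ) ≤ δ * (T / Real.log N) := by
  classical
  obtain ⟨B, x1, hfam⟩ := fam k 3 (A * b).natAbs (δ / 4) ε hk (by positivity) hε
    (Int.natAbs_pos.2 (mul_ne_zero hA hb))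
  set M0 : ℝ := |(A : ℝ)| + |(b : ℝ)| + |(e : ℝ)| + |(c : ℝ)| + 1 with hM0
  have hM0p : 1 ≤ M0 := by
    rw [hM0]
    linarith [abs_nonneg (A : ℝ), abs_nonneg (b : ℝ), abs_nonneg (e : ℝ), abs_nonneg (c : ℝ)]
  have tc : Tendsto (fun H : ℕ => (H : ℝ)) atTop atTop := tendsto_natCast_atTop_atTop
  have tl : Tendsto (fun H : ℕ => Real.log (H : ℝ)) atTop atTop := Real.tendsto_log_atTop.comp tc
  have hpw : ∀ (m : ℕ) (K : ℝ), 0 < K → ∀ᶠ H : ℕ in atTop, K * Real.log (H : ℝ) ^ m ≤ H := by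
    intro m K hK
    have h1 : (fun x : ℝ => Real.log x ^ m) =o[atTop] fun x : ℝ => x := Real.isLittleO_pow_log_id_atTop
    have h2 := h1.bound (show (0 : ℝ) < 1 / K by positivity)
    filter_upwards [tc.eventually h2, tc.eventually_ge_atTop 1] with H h3 h4
    rw [Real.norm_of_nonneg (pow_nonneg (Real.log_nonneg h4) _), Real.norm_of_nonneg (by linarith),
      one_div, inv_mul_eq_div, le_div_iff₀ hK] at h3
    linarith
  obtain ⟨x2, hx2⟩ := eventually_atTop.1 ((hpw (2 * U) (M0 + x1 + 2) (by positivity)).and ((hpw (U + 2) ((64 / δ ^ 2) + 1)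
    (by positivity)).and ((tl.eventually_ge_atTop 1).and ((hpw (U + 1) (4 / δ) (by positivity)).and
    ((hpw (2 * U) 1 one_pos).and (tc.eventually_ge_atTop 2))))))
  refine ⟨B, max 1 x2, fun N T hN hT1 hT2 => ?_⟩
  obtain ⟨k1, k2, k3, k4, k5, k6⟩ := hx2 N ((le_max_right _ _).trans hN)
  set L := Real.log (N : ℝ) with hL
  have hL0 : 0 < L := by linarith
  have hLU : 1 ≤ L ^ U := one_le_pow₀ k3
  have hLU0 : 0 < L ^ U := by positivity
  have hN0 : (0 : ℝ) < N := by linarith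
  -- T is large
  have hTN : (N : ℝ) / L ^ U ≤ T := by
    rw [div_le_iff₀ hLU0]
    exact hT1
  have hT0 : (0 : ℝ) < T := lt_of_lt_of_le (by positivity) hTN
  have hTM2 : (M0 + x1 + 2) * L ^ U ≤ T := by
    refine le_trans ?_ hTN
    rw [le_div_iff₀ hLU0]
    calc (M0 + x1 + 2) * L ^ U * L ^ U = (M0 + x1 + 2) * L ^ (2 * U) := by rw [two_mul, pow_add]; ring
      _ ≤ N := k1
  have hTM : (M0 + x1) * L ^ U ≤ T := by
    refine le_trans ?_ hTM2
    apply mul_le_mul_of_nonneg_right _ hLU0.le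
    linarith
  have hx1T : x1 ≤ T := by
    have h1 : (x1 : ℝ) ≤ T := by
      refine le_trans ?_ hTM
      have : (0 : ℝ) ≤ x1 := Nat.cast_nonneg _
      nlinarith
    exact_mod_cast h1
  have hTM0 : M0 * L ^ U ≤ T := by
    refine le_trans ?_ hTM
    apply mul_le_mul_of_nonneg_right _ hLU0.le
    have : (0 : ℝ) ≤ x1 := Nat.cast_nonneg _
    linarith
  have hT1' : (1 : ℝ) ≤ T := by nlinarith
  have hT2' : (2 : ℝ) ≤ T := by
    refine le_trans ?_ hTM2
    have : (0 : ℝ) ≤ x1 := Nat.cast_nonneg _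
    nlinarith
  have hlogT : 0 < Real.log (T : ℝ) := Real.log_pos (by linarith)
  have hlogTN : Real.log (T : ℝ) ≤ L := Real.log_le_log hT0 (by exact_mod_cast hT2)
  have hlogNT : L ≤ 2 * Real.log (T : ℝ) := by
    have h1 : L ^ U ≤ T := by nlinarith
    have h2 : (N : ℝ) ≤ T * T := hT1.trans (mul_le_mul_of_nonneg_left h1 hT0.le)
    have h3 := Real.log_le_log hN0 h2
    rw [Real.log_mul hT0.ne' hT0.ne'] at h3
    linarith
  have hsqT : √(T : ℝ) ≤ N := by
    have h1 : (T : ℝ) ≤ N := by exact_mod_cast hT2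
    rw [Real.sqrt_le_left hN0.le]
    nlinarith
  have hdv : ∀ p : ℕ, ¬ p ∣ (A * b).natAbs → ¬ (p : ℤ) ∣ A ∧ ¬ (p : ℤ) ∣ b := by
    intro p hp
    exact ⟨fun h => hp (Int.natCast_dvd.1 (h.mul_right b)), fun h => hp (Int.natCast_dvd.1 (h.mul_left A))⟩
  obtain ⟨Bad, hB1, hB2, hB3⟩ := hfam T N hx1T hsqT (fun n => fn (Lp A b e c n)) (Rl A b e c)
    (fun n p hp hd => rt_Lp hp (hdv p hd).1) (card_Rl A b e c) (fun n t p hp ht hd hcf => cls_Rl hp ht (hdv p hd).2 hcf)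
    (fun n p _ _ => per_L A b e c n p) (fun p hp hd => mean_L A b e c hp (hdv p hd).2)
  refine ⟨Bad, hB1, hB2, ?_⟩
  intro n hn hbad hadm S hS
  have hSc : ∀ x ∈ S, 1 ≤ x ∧ x ≤ T ∧ (A * (x : ℤ) ^ 2 + (b * n + e) * x + c).toNat.Prime := by
    intro x hx
    have := hS hx
    rw [PL, mem_filter, mem_Icc] at this
    exact ⟨this.1.1, this.1.2, this.2⟩
  have hsys : SysP 3 (fn (Lp A b e c n)) := by
    apply sys_of (Lp_deg A b e c n)
    intro p hp
    obtain ⟨x, hx⟩ := hadm p hp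
    refine ⟨x, ?_⟩
    have := fn_Lp A b e c n x
    unfold fn at this
    rw [this]
    exact hx
  by_cases hz : ∃ x ∈ Ioc 0 T, fn (Lp A b e c n) (x : ℤ) = 0
  · obtain ⟨x0, -, hx0⟩ := hz
    rw [fn_Lp] at hx0
    have h1 := four_values hA T x0 hx0
    have h2 : (Set.ncard {x : ℕ | x ∈ S ∧ ¬ InP S k (L ^ B) x} : ℝ) ≤ 4 := by
      have h3 : Set.ncard {x : ℕ | x ∈ S ∧ ¬ InP S k (L ^ B) x} ≤ Set.ncard (S : Set ℕ) :=
        Set.ncard_le_ncard (fun x hx => hx.1) S.finite_toSet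
      rw [Set.ncard_coe_finset] at h3
      have h4 : S.card ≤ 4 := (card_le_card hS).trans h1
      exact_mod_cast h3.trans h4
    refine h2.trans ?_
    rw [mul_div_assoc', le_div_iff₀ hL0]
    have h3 : 4 / δ * L ≤ T := by
      refine le_trans ?_ hTN
      rw [le_div_iff₀ hLU0]
      calc 4 / δ * L * L ^ U = 4 / δ * L ^ (U + 1) := by rw [pow_succ]; ring
        _ ≤ N := k4
    have h4 := mul_le_mul_of_nonneg_left h3 hδ.le
    have e4 : δ * (4 / δ * L) = 4 * L := by field_simp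
    linarith
  · push Not at hz
    have hsize : ∀ x ∈ Ioc 0 T, fn (Lp A b e c n) (x : ℤ) ≠ 0 ∧ |fn (Lp A b e c n) (x : ℤ)| ≤ (T : ℤ) ^ 3 := by
      intro x hx
      refine ⟨hz x hx, ?_⟩
      rw [fn_Lp]
      rw [mem_Ioc] at hx
      rw [mem_Icc] at hn
      have hxT : (x : ℝ) ≤ T := by exact_mod_cast hx.2
      have hx0 : (0 : ℝ) ≤ x := Nat.cast_nonneg x
      have hnN : (n : ℝ) ≤ N := by exact_mod_cast hn.2
      have hn0 : (0 : ℝ) ≤ n := Nat.cast_nonneg n
      have hNT : (N : ℝ) ≤ T * L ^ U := hT1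
      have hfin : |(A : ℝ) * (x : ℝ) ^ 2 + (b * n + e) * x + c| ≤ (T : ℝ) ^ 3 := by
        have t1 := abs_add_le ((A : ℝ) * (x : ℝ) ^ 2 + (b * n + e) * x) c
        have t2 := abs_add_le ((A : ℝ) * (x : ℝ) ^ 2) ((b * n + e) * x)
        have s1 : |(A : ℝ) * (x : ℝ) ^ 2| ≤ |(A : ℝ)| * (T : ℝ) ^ 2 := by
          rw [abs_mul, abs_pow, abs_of_nonneg hx0]
          exact mul_le_mul_of_nonneg_left (pow_le_pow_left₀ hx0 hxT 2) (abs_nonneg _)
        have s2 : |((b : ℝ) * n + e) * x| ≤ (|(b : ℝ)| + |(e : ℝ)|) * L ^ U * (T : ℝ) ^ 2 := by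
          rw [abs_mul, abs_of_nonneg hx0]
          have u1 := abs_add_le ((b : ℝ) * n) e
          rw [abs_mul, abs_of_nonneg hn0] at u1
          have u2 : |(b : ℝ)| * n ≤ |(b : ℝ)| * (T * L ^ U) := mul_le_mul_of_nonneg_left (hnN.trans hNT) (abs_nonneg _)
          have u3 : |(e : ℝ)| ≤ |(e : ℝ)| * (T * L ^ U) := by
            have : 1 ≤ T * L ^ U := by nlinarith
            nlinarith [abs_nonneg (e : ℝ)]
          calc |(b : ℝ) * n + e| * x ≤ ((|(b : ℝ)| + |(e : ℝ)|) * (T * L ^ U)) * T := by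
                apply mul_le_mul _ hxT hx0 (by positivity)
                linarith
            _ = (|(b : ℝ)| + |(e : ℝ)|) * L ^ U * (T : ℝ) ^ 2 := by ring
        have s3 : |(A : ℝ)| * (T : ℝ) ^ 2 ≤ |(A : ℝ)| * L ^ U * (T : ℝ) ^ 2 := by
          apply mul_le_mul_of_nonneg_right _ (by positivity)
          nlinarith [abs_nonneg (A : ℝ)]
        have s4 : |(c : ℝ)| ≤ |(c : ℝ)| * L ^ U * (T : ℝ) ^ 2 := by
          have : 1 ≤ L ^ U * (T : ℝ) ^ 2 := by
            have : (1 : ℝ) ≤ (T : ℝ) ^ 2 := one_le_pow₀ hT1'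
            nlinarith
          nlinarith [abs_nonneg (c : ℝ)]
        calc |(A : ℝ) * (x : ℝ) ^ 2 + (b * n + e) * x + c| ≤
              (|(A : ℝ)| + |(b : ℝ)| + |(e : ℝ)| + |(c : ℝ)|) * L ^ U * (T : ℝ) ^ 2 := by linarith
          _ ≤ M0 * L ^ U * (T : ℝ) ^ 2 := by
            apply mul_le_mul_of_nonneg_right _ (by positivity)
            apply mul_le_mul_of_nonneg_right _ hLU0.le
            rw [hM0]
            linarith
          _ ≤ T * (T : ℝ) ^ 2 := mul_le_mul_of_nonneg_right hTM0 (by positivity)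
          _ = (T : ℝ) ^ 3 := by ring
      exact_mod_cast hfin
    have hap := hB3 n hn hbad hsys hsize
    apply few hk
    intro Z hZS hZc
    set Y : ℕ := ⌊√(T : ℝ)⌋₊ with hY
    have hYu : (Y : ℝ) ≤ √(T : ℝ) := Nat.floor_le (Real.sqrt_nonneg _)
    set R := (Icc 1 T).filter (fun x : ℕ => 0 < A * (x : ℤ) ^ 2 + (b * n + e) * x + c ∧
      A * (x : ℤ) ^ 2 + (b * n + e) * x + c ≤ Y) with hR
    have hRc : R.card ≤ 2 * Y := small_values hA _ _
    have hRr : (R.card : ℝ) ≤ δ / 2 * (T / L) := by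
      have h1 : (R.card : ℝ) ≤ 2 * Y := by exact_mod_cast hRc
      have h2 : √(T : ℝ) * √(T : ℝ) = T := Real.mul_self_sqrt hT0.le
      have h3 : 4 * L ≤ δ * √(T : ℝ) := by
        have h4 : 4 * L / δ ≤ √(T : ℝ) := by
          apply Real.le_sqrt_of_sq_le
          refine le_trans ?_ hTN
          rw [le_div_iff₀ hLU0]
          calc (4 * L / δ) ^ 2 * L ^ U = (16 / δ ^ 2) * L ^ (U + 2) := by rw [pow_add]; ring
            _ ≤ (64 / δ ^ 2 + 1) * L ^ (U + 2) := by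
              apply mul_le_mul_of_nonneg_right _ (by positivity)
              have : 16 / δ ^ 2 ≤ 64 / δ ^ 2 := div_le_div_of_nonneg_right (by norm_num) (by positivity)
              linarith
            _ ≤ N := k2
        rw [div_le_iff₀ hδ] at h4
        linarith
      rw [mul_div_assoc', le_div_iff₀ hL0]
      calc (R.card : ℝ) * L ≤ (2 * √(T : ℝ)) * L := by
            apply mul_le_mul_of_nonneg_right _ hL0.le
            linarith
        _ = (4 * L) * √(T : ℝ) / 2 := by ring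
        _ ≤ (δ * √(T : ℝ)) * √(T : ℝ) / 2 := by
          apply div_le_div_of_nonneg_right _ (by norm_num)
          exact mul_le_mul_of_nonneg_right h3 (Real.sqrt_nonneg _)
        _ = δ / 2 * (√(T : ℝ) * √(T : ℝ)) := by ring
        _ = δ / 2 * T := by rw [h2]
    obtain ⟨x, d, hd1, hdB, hxd⟩ := hap (Z \ R) (by
        intro x hx
        rw [Finset.mem_sdiff] at hx
        have h1 := hSc x (hZS hx.1)
        rw [mem_Ioc]
        exact ⟨h1.1, h1.2.1⟩) (by
        intro x hx p hp hpY hpd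
        rw [Finset.mem_sdiff] at hx
        obtain ⟨h1, h2, h3⟩ := hSc x (hZS hx.1)
        rw [fn_Lp] at hpd
        have hpos : 0 < A * (x : ℤ) ^ 2 + (b * n + e) * x + c := by
          by_contra hcon
          rw [Int.toNat_of_nonpos (not_lt.1 hcon)] at h3
          exact Nat.not_prime_zero h3
        have h4 : p ∣ (A * (x : ℤ) ^ 2 + (b * n + e) * x + c).toNat := by
          rw [← Int.natCast_dvd_natCast, Int.toNat_of_nonneg hpos.le]
          exact hpd
        have h5 := (Nat.prime_dvd_prime_iff_eq hp h3).1 h4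
        apply hx.2
        rw [hR, mem_filter, mem_Icc]
        refine ⟨⟨h1, h2⟩, hpos, ?_⟩
        have h6 : p ≤ Y := by
          apply Nat.le_floor
          rw [Real.sqrt_eq_rpow]
          exact hpY
        have h7 : (A * (x : ℤ) ^ 2 + (b * n + e) * x + c) = (p : ℤ) := by
          rw [h5, Int.toNat_of_nonneg hpos.le]
        rw [h7]
        exact_mod_cast h6) (by
        have h1 : (Z.card : ℝ) ≤ (Z \ R).card + R.card := by
          exact_mod_cast Finset.card_le_card_sdiff_add_card (s := Z) (t := R)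
        have h2 : δ / 4 * (T / Real.log (T : ℝ)) ≤ δ / 2 * (T / L) := by
          rw [mul_div_assoc', mul_div_assoc', div_le_div_iff₀ hlogT hL0]
          have : (0 : ℝ) < δ * T := by positivity
          nlinarith
        linarith)
    exact ⟨x, d, hd1, hdB.trans (pow_le_pow_left₀ hlogT.le hlogTN B), fun i hi => (Finset.mem_sdiff.1 (hxd i hi)).1⟩

end Pool.Agent.U497.SF
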